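import Mathlib

/-!
Counting paths and circuits in a finite digraph with positive weights.
-/

namespace Pool.Agent.Lib.MP_0a131d_gt

open Real Filter Topology

open scoped Classical

variable {E : Type} [Fintype E]

/-- `R`-chains following `e`, of total length at most `x`. -/
def paths (R : E → E → Prop) (l : E → ℝ) (e : E) (x : ℝ) : Set (List E) :=
  {p | List.IsChain R (e :: p) ∧ (p.map l).sum ≤ x}

/-- Nonempty `R`-cycles of total length at most `x`. -/
def cycs (R : E → E → Prop) (l : E → ℝ) (x : ℝ) : Set (Cycle E) :=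
  {c | c ≠ Cycle.nil ∧ c.Chain R ∧ (c.toMultiset.map l).sum ≤ x}

omit [Fintype E] in
theorem length_mul_le {l : E → ℝ} {m : ℝ} (hm : ∀ e, m ≤ l e) (p : List E) :
    (p.length : ℝ) * m ≤ (p.map l).sum := by
  induction p with
  | nil => simp
  | cons a p ih =>
    simp only [List.length_cons, List.map_cons, List.sum_cons]
    push_cast
    have := hm a
    linarith

omit [Fintype E] in
theorem length_le_floor {l : E → ℝ} {m : ℝ} (hm0 : 0 < m) (hm : ∀ e, m ≤ l e) {p : List E} {x : ℝ}
    (hp : (p.map l).sum ≤ x) : p.length ≤ ⌊x / m⌋₊ := by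
  apply Nat.le_floor
  rw [le_div_iff₀ hm0]
  exact (length_mul_le hm p).trans hp

omit [Fintype E] in
theorem sum_nonneg' {l : E → ℝ} (hl : ∀ e, 0 < l e) (p : List E) : 0 ≤ (p.map l).sum := by
  have := length_mul_le (m := 0) (fun e => (hl e).le) p
  simpa using this

theorem exists_min {l : E → ℝ} (hl : ∀ e, 0 < l e) : ∃ m, 0 < m ∧ ∀ e, m ≤ l e := by
  rcases isEmpty_or_nonempty E with h | h
  · exact ⟨1, one_pos, fun e => (h.false e).elim⟩
  · obtain ⟨e, he⟩ := Finite.exists_min l
    exact ⟨l e, hl e, he⟩

theorem paths_finite (R : E → E → Prop) {l : E → ℝ} (hl : ∀ e, 0 < l e) (e : E) (x : ℝ) :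
    (paths R l e x).Finite := by
  obtain ⟨m, hm0, hm⟩ := exists_min hl
  exact (List.finite_length_le E ⌊x / m⌋₊).subset (fun p hp => length_le_floor hm0 hm hp.2)

omit [Fintype E] in
theorem paths_neg (R : E → E → Prop) {l : E → ℝ} (hl : ∀ e, 0 < l e) (e : E) {x : ℝ} (hx : x < 0) :
    paths R l e x = ∅ := by
  ext p
  simp only [paths, Set.mem_ofPred_eq, Set.mem_empty_iff_false, iff_false, not_and, not_le]
  intro _
  exact hx.trans_le (sum_nonneg' hl p)

theorem paths_rec (R : E → E → Prop) {l : E → ℝ} (hl : ∀ e, 0 < l e) (e : E) {x : ℝ} (hx : 0 ≤ x) :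
    (paths R l e x).ncard
      = 1 + ∑ e' ∈ Finset.univ.filter (fun e' => R e e'), (paths R l e' (x - l e')).ncard := by
  have h1 : (paths_finite R hl e x).toFinset = insert []
      ((Finset.univ.filter (fun e' => R e e')).biUnion
        (fun e' => ((paths_finite R hl e' (x - l e')).toFinset).image (fun p => e' :: p))) := by
    ext p
    simp only [Set.Finite.mem_toFinset, Finset.mem_insert, Finset.mem_biUnion, Finset.mem_filter,
      Finset.mem_univ, true_and, Finset.mem_image, paths, Set.mem_ofPred_eq]
    constructor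
    · rintro ⟨h1, h2⟩
      cases p with
      | nil => exact Or.inl rfl
      | cons a p =>
        right
        rw [List.isChain_cons_cons] at h1
        refine ⟨a, h1.1, p, ⟨h1.2, ?_⟩, rfl⟩
        simp only [List.map_cons, List.sum_cons] at h2
        linarith
    · rintro (rfl | ⟨a, ha, q, ⟨h1, h2⟩, rfl⟩)
      · simpa using hx
      · refine ⟨List.isChain_cons_cons.2 ⟨ha, h1⟩, ?_⟩
        simp only [List.map_cons, List.sum_cons]
        linarith
  rw [Set.ncard_eq_toFinset_card _ (paths_finite R hl e x), h1, Finset.card_insert_of_notMem,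
    Finset.card_biUnion, add_comm]
  · congr 1
    refine Finset.sum_congr rfl (fun e' _ => ?_)
    rw [Finset.card_image_of_injective _ (List.cons_injective),
      Set.ncard_eq_toFinset_card _ (paths_finite R hl e' _)]
  · intro a _ b _ hab
    simp only [Function.onFun]
    rw [Finset.disjoint_left]
    intro p hp hq
    simp only [Finset.mem_image] at hp hq
    obtain ⟨p1, _, rfl⟩ := hp
    obtain ⟨p2, _, h⟩ := hq
    exact hab (List.cons.inj h).1.symm
  · simp

theorem paths_upper (R : E → E → Prop) {l : E → ℝ} (hl : ∀ e, 0 < l e) {s : ℝ} (hs : 0 ≤ s)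
    {β : E → ℝ} (hβ0 : ∀ e, 0 ≤ β e)
    (hβ : ∀ e, 1 + ∑ e' ∈ Finset.univ.filter (fun e' => R e e'), exp (-(s * l e')) * β e' ≤ β e)
    (e : E) (x : ℝ) : ((paths R l e x).ncard : ℝ) ≤ β e * exp (s * x) := by
  obtain ⟨m, hm0, hm⟩ := exists_min hl
  have key : ∀ n : ℕ, ∀ e x, x < n * m → ((paths R l e x).ncard : ℝ) ≤ β e * exp (s * x) := by
    intro n
    induction n with
    | zero =>
      intro e x hx
      rw [paths_neg R hl e (by simpa using hx)]
      have := hβ0 e
      simp only [Set.ncard_empty, Nat.cast_zero]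
      positivity
    | succ n ih =>
      intro e x hx
      rcases lt_or_ge x 0 with h0 | h0
      · rw [paths_neg R hl e h0]
        have := hβ0 e
        simp only [Set.ncard_empty, Nat.cast_zero]
        positivity
      · rw [paths_rec R hl e h0]
        push_cast
        have h1 : ∑ e' ∈ Finset.univ.filter (fun e' => R e e'),
            ((paths R l e' (x - l e')).ncard : ℝ)
            ≤ ∑ e' ∈ Finset.univ.filter (fun e' => R e e'),
              exp (-(s * l e')) * β e' * exp (s * x) := by
          refine Finset.sum_le_sum (fun e' _ => ?_)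
          refine (ih e' _ ?_).trans (le_of_eq ?_)
          · have := hm e'
            push_cast at hx
            linarith
          · rw [mul_sub, sub_eq_add_neg, exp_add]
            ring
        rw [← Finset.sum_mul] at h1
        have h2 : 1 ≤ exp (s * x) := one_le_exp (by positivity)
        have h3 := mul_le_mul_of_nonneg_right (hβ e) (exp_pos (s * x)).le
        nlinarith
  obtain ⟨n, hn⟩ := exists_nat_gt (x / m)
  exact key n e x (by rwa [div_lt_iff₀ hm0] at hn)

theorem paths_lower (R : E → E → Prop) {l : E → ℝ} (hl : ∀ e, 0 < l e) {s : ℝ} (hs : 0 ≤ s)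
    {β : E → ℝ} (hβ0 : ∀ e, 0 ≤ β e)
    (hβ : ∀ e, β e ≤ ∑ e' ∈ Finset.univ.filter (fun e' => R e e'), exp (-(s * l e')) * β e') :
    ∃ c : ℝ, 0 < c ∧ ∀ e x, 0 ≤ x → c * β e * exp (s * x) ≤ ((paths R l e x).ncard : ℝ) := by
  obtain ⟨m, hm0, hm⟩ := exists_min hl
  set L := ∑ e, l e with hL
  set B := 1 + ∑ e, β e with hB
  have hLe : ∀ e, l e ≤ L := fun e =>
    Finset.single_le_sum (f := l) (fun e _ => (hl e).le) (Finset.mem_univ e)
  have hBe : ∀ e, β e ≤ B := fun e => by
    have := Finset.single_le_sum (f := β) (fun e _ => hβ0 e) (Finset.mem_univ e)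
    linarith
  have hB0 : 0 < B := by
    have := Finset.sum_nonneg (s := Finset.univ) (f := β) (fun e _ => hβ0 e)
    linarith
  refine ⟨exp (-(s * L)) / B, by positivity, ?_⟩
  have base : ∀ e x, 0 ≤ x → x ≤ L →
      exp (-(s * L)) / B * β e * exp (s * x) ≤ ((paths R l e x).ncard : ℝ) := by
    intro e x h0 hx
    rw [paths_rec R hl e h0]
    push_cast
    have h1 : (0 : ℝ) ≤ ∑ e' ∈ Finset.univ.filter (fun e' => R e e'),
            ((paths R l e' (x - l e')).ncard : ℝ) := by positivity
    have h2 : exp (-(s * L)) / B * β e * exp (s * x)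
        = (β e / B) * (exp (-(s * L)) * exp (s * x)) := by ring
    have h3 : β e / B ≤ 1 := (div_le_one hB0).2 (hBe e)
    have h4 : exp (-(s * L)) * exp (s * x) ≤ 1 := by
      rw [← exp_add, exp_le_one_iff]
      nlinarith
    have h5 : 0 ≤ β e / B := div_nonneg (hβ0 e) hB0.le
    have h6 : (β e / B) * (exp (-(s * L)) * exp (s * x)) ≤ 1 :=
      mul_le_one₀ h3 (by positivity) h4
    linarith
  have key : ∀ n : ℕ, ∀ e x, 0 ≤ x → x < n * m →
      exp (-(s * L)) / B * β e * exp (s * x) ≤ ((paths R l e x).ncard : ℝ) := by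
    intro n
    induction n with
    | zero =>
      intro e x h0 hx
      simp only [Nat.cast_zero, zero_mul] at hx
      linarith
    | succ n ih =>
      intro e x h0 hx
      rcases le_or_gt x L with h | h
      · exact base e x h0 h
      · rw [paths_rec R hl e h0]
        push_cast
        have h1 : ∑ e' ∈ Finset.univ.filter (fun e' => R e e'),
              exp (-(s * l e')) * β e' * (exp (-(s * L)) / B * exp (s * x))
            ≤ ∑ e' ∈ Finset.univ.filter (fun e' => R e e'),
            ((paths R l e' (x - l e')).ncard : ℝ) := by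
          refine Finset.sum_le_sum (fun e' _ => ?_)
          refine (le_of_eq ?_).trans (ih e' _ ?_ ?_)
          · rw [mul_sub, sub_eq_add_neg, exp_add]
            ring
          · have := hLe e'
            linarith
          · have := hm e'
            push_cast at hx
            linarith
        rw [← Finset.sum_mul] at h1
        have h3 := mul_le_mul_of_nonneg_right (hβ e)
          (show 0 ≤ exp (-(s * L)) / B * exp (s * x) by positivity)
        nlinarith
  intro e x h0
  obtain ⟨n, hn⟩ := exists_nat_gt (x / m)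
  exact key n e x h0 (by rwa [div_lt_iff₀ hm0] at hn)

omit [Fintype E] in
theorem cycs_subset (R : E → E → Prop) {l : E → ℝ} (hl : ∀ e, 0 < l e) (x : ℝ) :
    cycs R l x ⊆ ⋃ a : E, (fun p : List E => ((a :: p : List E) : Cycle E)) '' paths R l a x := by
  intro c hc
  obtain ⟨h1, h2, h3⟩ := hc
  induction c using Cycle.induction_on with
  | nil => exact (h1 rfl).elim
  | cons a p _ =>
    simp only [Set.mem_iUnion, Set.mem_image]
    refine ⟨a, p, ⟨?_, ?_⟩, rfl⟩
    · rw [Cycle.chain_coe_cons] at h2
      have : a :: (p ++ [a]) = (a :: p) ++ [a] := rfl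
      rw [this] at h2
      exact h2.left_of_append
    · simp only [Cycle.coe_toMultiset, Multiset.map_coe, Multiset.sum_coe, List.map_cons,
        List.sum_cons] at h3
      have := hl a
      linarith

theorem cycs_finite (R : E → E → Prop) {l : E → ℝ} (hl : ∀ e, 0 < l e) (x : ℝ) :
    (cycs R l x).Finite :=
  (Set.finite_iUnion (fun a => (paths_finite R hl a x).image _)).subset (cycs_subset R hl x)

theorem cycs_le (R : E → E → Prop) {l : E → ℝ} (hl : ∀ e, 0 < l e) (x : ℝ) :
    (cycs R l x).ncard ≤ ∑ a, (paths R l a x).ncard := by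
  refine (Set.ncard_le_ncard (cycs_subset R hl x)
    (Set.finite_iUnion (fun a => (paths_finite R hl a x).image _))).trans ?_
  refine (Set.ncard_iUnion_le_of_fintype _).trans ?_
  exact Finset.sum_le_sum (fun a _ => Set.ncard_image_le (paths_finite R hl a x))

end Pool.Agent.Lib.MP_0a131d_gt
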