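import Mathlib

/-!
Definitions for the subgraph entropy problem: finite graphs with oriented edges,
circuits, entropy of a length function, and the constants `C r`.
-/

namespace Pool.Agent.Lib.MP_0a131d_gt

open Filter

/-- A graph with loops and multiple edges allowed. `V` is the set of vertices, `E` the set of
oriented edges; `o e` is the origin of `e` and `bar e` is the reversed edge. -/
structure Graph (V E : Type) where
  o : E → V
  bar : E → E
  bar_bar : ∀ e, bar (bar e) = e
  bar_ne : ∀ e, bar e ≠ e

variable {V E : Type}

/-- The terminus of an oriented edge. -/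
def Graph.t (G : Graph V E) (e : E) : V := G.o (G.bar e)

/-- The graph is connected: it has a vertex and any two vertices are joined by an edge path. -/
def Graph.Connected (G : Graph V E) : Prop :=
  Nonempty V ∧ ∀ u v : V, Relation.ReflTransGen (fun a b => ∃ e, G.o e = a ∧ G.t e = b) u v

/-- The rank of the fundamental group of a finite connected graph:
(number of unoriented edges) - (number of vertices) + 1. -/
def Graph.rank [Fintype V] [Fintype E] (_G : Graph V E) : ℤ :=
  ((Fintype.card E / 2 : ℕ) : ℤ) - (Fintype.card V : ℤ) + 1

/-- A length function: positive, and the same on both orientations of an edge. -/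
def Graph.IsLength (G : Graph V E) (l : E → ℝ) : Prop :=
  ∀ e, 0 < l e ∧ l (G.bar e) = l e

/-- A subgraph: a set of vertices and a set of edges (with both orientations), closed under
taking endpoints. -/
structure Graph.Subgraph (G : Graph V E) where
  verts : Set V
  edges : Set E
  bar_mem : ∀ e ∈ edges, G.bar e ∈ edges
  o_mem : ∀ e ∈ edges, G.o e ∈ verts

/-- A subgraph is proper if it is not the whole graph. -/
def Graph.Subgraph.Proper {G : Graph V E} (H : G.Subgraph) : Prop :=
  ¬ (H.verts = Set.univ ∧ H.edges = Set.univ)

/-- `e'` may follow `e` in a circuit: the terminus of `e` is the origin of `e'`, and there is no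
backtracking. -/
def Graph.Next (G : Graph V E) (e e' : E) : Prop :=
  G.t e = G.o e' ∧ e' ≠ G.bar e

/-- The circuits (nonempty cyclic sequences of oriented edges, consecutive and without
backtracking, also cyclically) that use only edges of `T` and have length at most `x`. -/
def Graph.circuits (G : Graph V E) (T : Set E) (l : E → ℝ) (x : ℝ) : Set (Cycle E) :=
  {c | c ≠ Cycle.nil ∧ c.Chain G.Next ∧ (∀ e ∈ c, e ∈ T) ∧ (c.toMultiset.map l).sum ≤ x}

/-- The length function `l` has entropy `h` on the subgraph with edge set `T`:
`(1 / x) * log (number of circuits of length at most x)` tends to `h` as `x` tends to infinity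
(`Real.log 0 = 0`, so the entropy is `0` when there are no circuits). -/
def Graph.HasEntropy (G : Graph V E) (T : Set E) (l : E → ℝ) (h : ℝ) : Prop :=
  Tendsto (fun x : ℝ => Real.log ((G.circuits T l x).ncard : ℝ) / x) atTop (nhds h)

/-- `C r` is the infimum, over finite connected graphs of rank `r` and length functions of
entropy `1`, of the maximum of the entropies of the proper subgraphs. -/
noncomputable def C (r : ℕ) : ℝ :=
  sInf {c : ℝ | ∃ (V E : Type) (_ : Fintype V) (_ : Fintype E) (G : Graph V E) (l : E → ℝ),
    G.Connected ∧ G.rank = (r : ℤ) ∧ G.IsLength l ∧ G.HasEntropy Set.univ l 1 ∧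
    IsGreatest {h : ℝ | ∃ H : G.Subgraph, H.Proper ∧ G.HasEntropy H.edges l h} c}

end Pool.Agent.Lib.MP_0a131d_gt
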