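import Pool.Agent.Lib.MP_0a131d_gt.Upper

/-!
The graph `x -- 2 x, 2 x + 1` on `ZMod N` has bounded resistance diameter.
-/

namespace Pool.Agent.Lib.MP_0a131d_gt

open Real Finset

variable {N : ℕ} [NeZero N]

theorem sum_zmod (F : ZMod N → ℝ) (a : ZMod N) : ∑ t ∈ range N, F (a + (t : ZMod N)) = ∑ x, F x := by
  rw [← Equiv.sum_comp (Equiv.addLeft a) F]
  refine Finset.sum_nbij' (fun t => (t : ZMod N)) (fun x => x.val) (fun _ _ => mem_univ _)
    (fun x _ => mem_range.2 (ZMod.val_lt x)) (fun t ht => ZMod.val_cast_of_lt (mem_range.1 ht))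
    (fun x _ => ZMod.natCast_zmod_val x) (fun _ _ => rfl)

omit [NeZero N] in
theorem sum_double (F : ZMod N → ℝ) (a : ZMod N) (L : ℕ) :
    ∑ t ∈ range (2 * L), F (2 * a + (t : ZMod N))
      = ∑ t ∈ range L, (F (2 * (a + (t : ZMod N))) + F (2 * (a + (t : ZMod N)) + 1)) := by
  induction L with
  | zero => simp
  | succ L ih =>
    rw [mul_add, mul_one, sum_range_succ, sum_range_succ, ih, sum_range_succ, add_assoc]
    congr 2
    · congr 1
      push_cast
      ring
    · congr 1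
      push_cast
      ring

theorem sum_two (F : ZMod N → ℝ) : ∑ x, (F (2 * x) + F (2 * x + 1)) = 2 * ∑ x, F x := by
  have h : ∑ t ∈ range N, F (2 * 0 + ((N + t : ℕ) : ZMod N)) = ∑ x, F x := by
    rw [← sum_zmod F (2 * 0)]
    refine sum_congr rfl fun t _ => ?_
    rw [Nat.cast_add, ZMod.natCast_self, zero_add (t : ZMod N)]
  rw [← sum_zmod (fun x => F (2 * x) + F (2 * x + 1)) 0, ← sum_double, two_mul N, sum_range_add,
    sum_zmod F (2 * 0), h, two_mul]

/-- The Dirichlet energy of the doubling graph. -/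
noncomputable def energy (g : ZMod N → ℝ) : ℝ :=
  ∑ x, ((g x - g (2 * x)) ^ 2 + (g x - g (2 * x + 1)) ^ 2)

theorem energy_nonneg (g : ZMod N → ℝ) : 0 ≤ energy g :=
  sum_nonneg fun _ _ => by positivity

theorem block_le (g : ZMod N → ℝ) {ρ : ℝ} (hρ : 0 ≤ ρ) (h : energy g ≤ ρ ^ 2) (x : ZMod N) (j : ℕ)
    (hj : ∀ i < j, 2 ^ i ≤ N) :
    |∑ t ∈ range (2 ^ j), g (2 ^ j * x + (t : ZMod N)) - 2 ^ j * g x|
      ≤ 4 * ρ * (2 ^ j - (3 / 2) ^ j) := by
  induction j with
  | zero => simp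
  | succ j ih =>
    have h1 := ih fun i hi => hj i (by omega)
    set a : ZMod N := 2 ^ j * x with ha
    set d : ZMod N → ℝ := fun y => 2 * g y - (g (2 * y) + g (2 * y + 1)) with hd
    have e1 : ∑ t ∈ range (2 ^ (j + 1)), g (2 ^ (j + 1) * x + (t : ZMod N))
        = 2 * ∑ t ∈ range (2 ^ j), g (a + (t : ZMod N))
          - ∑ t ∈ range (2 ^ j), d (a + (t : ZMod N)) := by
      rw [pow_succ' 2 j, show (2 : ZMod N) ^ (j + 1) * x = 2 * a by rw [ha]; ring, sum_double,
        mul_sum, ← sum_sub_distrib]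
      exact sum_congr rfl fun t _ => by simp only [hd]; ring
    have e2 : ∑ t ∈ range (2 ^ j), d (a + (t : ZMod N)) ^ 2 ≤ 2 * ρ ^ 2 := by
      refine (sum_le_sum_of_subset_of_nonneg (range_mono (hj j (by omega)))
        fun _ _ _ => sq_nonneg _).trans ?_
      rw [sum_zmod (fun y => d y ^ 2) a]
      refine le_trans ?_ (mul_le_mul_of_nonneg_left h zero_le_two)
      rw [energy, mul_sum]
      refine sum_le_sum fun y _ => ?_
      simp only [hd]
      nlinarith [sq_nonneg (g (2 * y) - g (2 * y + 1))]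
    have e3 := sq_sum_le_card_mul_sum_sq (s := range (2 ^ j)) (f := fun t : ℕ => d (a + (t : ZMod N)))
    rw [card_range] at e3
    push_cast at e3
    have e4 : (2 : ℝ) ^ j ≤ ((3 / 2) ^ j) ^ 2 := by
      rw [← pow_mul, mul_comm, pow_mul]
      exact pow_le_pow_left₀ zero_le_two (by norm_num) j
    have e5 : |∑ t ∈ range (2 ^ j), d (a + (t : ZMod N))| ≤ 2 * ρ * (3 / 2) ^ j := by
      refine abs_le_of_sq_le_sq' ?_ (by positivity) |> abs_le.2
      have e6 : (2 : ℝ) ^ j * ∑ t ∈ range (2 ^ j), d (a + (t : ZMod N)) ^ 2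
          ≤ ((3 / 2) ^ j) ^ 2 * (2 * ρ ^ 2) :=
        mul_le_mul e4 e2 (sum_nonneg fun _ _ => sq_nonneg _) (sq_nonneg _)
      nlinarith [sq_nonneg (ρ * (3 / 2) ^ j)]
    rw [e1, pow_succ, pow_succ]
    rw [abs_le] at h1 e5 ⊢
    constructor <;> linarith [h1.1, h1.2, e5.1, e5.2]

theorem osc_le (g : ZMod N → ℝ) {ρ : ℝ} (hρ : 0 ≤ ρ) (h : energy g ≤ ρ ^ 2) (x y : ZMod N) :
    g x - g y ≤ 16 * ρ := by
  have hN : 0 < N := Nat.pos_of_ne_zero (NeZero.ne N)
  obtain ⟨xM, hM⟩ := Finite.exists_max g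
  obtain ⟨xm, hm⟩ := Finite.exists_min g
  set k := Nat.log 2 N + 1 with hk
  have h1 : N < 2 ^ k := Nat.lt_pow_succ_log_self one_lt_two N
  have h2 : 2 ^ Nat.log 2 N ≤ N := Nat.pow_log_le_self 2 hN.ne'
  have h3 : ∀ i < k, 2 ^ i ≤ N := fun i hi =>
    (Nat.pow_le_pow_right two_pos (by omega)).trans h2
  obtain ⟨R, hR⟩ : ∃ R, 2 ^ k = N + R := ⟨2 ^ k - N, by omega⟩
  have hRN : R ≤ N := by
    rw [hk, pow_succ] at hR
    omega
  have hR' : (2 : ℝ) ^ k = N + R := by exact_mod_cast hR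
  have hRN' : (R : ℝ) ≤ N := by exact_mod_cast hRN
  have hN' : (0 : ℝ) < N := by exact_mod_cast hN
  have key : ∀ z : ZMod N, ∃ T : ℝ, R * g xm ≤ T ∧ T ≤ R * g xM ∧
      |∑ w, g w + T - (N + R) * g z| ≤ 8 * ρ * N := by
    intro z
    have h4 := block_le g hρ h z k h3
    rw [hR', hR, sum_range_add, sum_zmod] at h4
    refine ⟨_, ?_, ?_, h4.trans ?_⟩
    · have := card_nsmul_le_sum (range R) _ (g xm)
        (fun t _ => hm (2 ^ k * z + ((N + t : ℕ) : ZMod N)))
      rwa [card_range, nsmul_eq_mul] at this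
    · have := sum_le_card_nsmul (range R) _ (g xM)
        (fun t _ => hM (2 ^ k * z + ((N + t : ℕ) : ZMod N)))
      rwa [card_range, nsmul_eq_mul] at this
    · have h5 : (0 : ℝ) ≤ (3 / 2) ^ k := by positivity
      nlinarith [mul_nonneg hρ h5, mul_le_mul_of_nonneg_left hRN' hρ]
  obtain ⟨T1, -, a1, a2⟩ := key xM
  obtain ⟨T2, b1, -, b2⟩ := key xm
  rw [abs_le] at a2 b2
  have h6 : N * (g xM - g xm) ≤ N * (16 * ρ) := by linarith [a2.1, b2.2]
  have h7 := le_of_mul_le_mul_left h6 hN'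
  linarith [hM x, hm y]

theorem sum_sq_le (g : ZMod N → ℝ) (p : ZMod N) :
    ∑ x, g x ^ 2 ≤ 257 * N * (g p ^ 2 + energy g) := by
  have hρ := Real.sqrt_nonneg (energy g)
  have hρ2 := Real.sq_sqrt (energy_nonneg g)
  have h : ∀ x ∈ (univ : Finset (ZMod N)), g x ^ 2 ≤ 257 * (g p ^ 2 + energy g) := by
    intro x _
    have h1 := osc_le g hρ hρ2.ge x p
    have h2 := osc_le g hρ hρ2.ge p x
    have h3 : (g x - g p) ^ 2 ≤ (16 * √(energy g)) ^ 2 := sq_le_sq' (by linarith) h1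
    rw [mul_pow, hρ2] at h3
    nlinarith [sq_nonneg (256 * g p - (g x - g p))]
  have := sum_le_card_nsmul _ _ _ h
  rw [card_univ, ZMod.card, nsmul_eq_mul] at this
  linarith

/-- The other end of the edge `(x, i)`. -/
def nxt (x : ZMod N) (i : Bool) : ZMod N := if i then 2 * x + 1 else 2 * x

/-- The graph on `ZMod N` with edges `x -- 2 x` and `x -- 2 x + 1`. -/
def dbl (N : ℕ) : Graph (ZMod N) (ZMod N × Bool × Bool) where
  o := fun e => if e.2.2 then nxt e.1 e.2.1 else e.1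
  bar := fun e => (e.1, e.2.1, !e.2.2)
  bar_bar := fun e => by simp
  bar_ne := fun e h => by simpa using congrArg (fun x => x.2.2) h

theorem dbl_sum (F : ZMod N → ℝ) : ∑ e, F ((dbl N).o e) = 4 * ∑ x, F x := by
  have h := sum_two F
  rw [sum_add_distrib] at h
  simp only [Fintype.sum_prod_type, Fintype.sum_bool, dbl, nxt, if_true, Bool.false_eq_true,
    if_false, sum_add_distrib]
  linarith

theorem dbl_reg (v : ZMod N) : (@Finset.filter _ (fun e => (dbl N).o e = v)
    (fun _ => Classical.propDecidable _) univ).card = 3 + 1 := by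
  have h := dbl_sum (N := N) (fun x => if x = v then 1 else 0)
  rw [sum_boole, sum_ite_eq' univ v (fun _ => (1 : ℝ)), if_pos (mem_univ _), mul_one] at h
  have h' : (univ.filter fun e => (dbl N).o e = v).card = 3 + 1 := by exact_mod_cast h
  convert h'

theorem dbl_energy (g : ZMod N → ℝ) :
    ∑ e, (g ((dbl N).o e) - g ((dbl N).t e)) ^ 2 = 2 * energy g := by
  simp only [Fintype.sum_prod_type, Fintype.sum_bool, dbl, nxt, Graph.t, if_true,
    Bool.false_eq_true, if_false, Bool.not_true, Bool.not_false, energy, mul_sum]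
  exact sum_congr rfl fun x _ => by ring

theorem dbl_edge (g : ZMod N → ℝ) (e : ZMod N × Bool × Bool) :
    (g ((dbl N).o e) - g ((dbl N).t e)) ^ 2 ≤ energy g := by
  obtain ⟨x, i, b⟩ := e
  have h := single_le_sum (s := univ)
    (f := fun x : ZMod N => (g x - g (2 * x)) ^ 2 + (g x - g (2 * x + 1)) ^ 2)
    (fun _ _ => by positivity) (mem_univ x)
  have h1 := sq_nonneg (g x - g (2 * x))
  have h2 := sq_nonneg (g x - g (2 * x + 1))
  rw [energy]
  cases i <;> cases b <;>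
    simp only [dbl, nxt, Graph.t, if_true, Bool.false_eq_true, if_false, Bool.not_true,
      Bool.not_false] <;> nlinarith

theorem dbl_connected : (dbl N).Connected := by
  have h0 : ∀ n : ℕ, Relation.ReflTransGen (fun a b => ∃ e, (dbl N).o e = a ∧ (dbl N).t e = b)
      (0 : ZMod N) (n : ZMod N) := by
    intro n
    induction n using Nat.strong_induction_on with
    | _ n ih =>
      rcases Nat.eq_zero_or_pos n with rfl | hn
      · rw [Nat.cast_zero]
      · refine (ih (n / 2) (by omega)).tail ?_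
        rcases Nat.mod_two_eq_zero_or_one n with h | h
        · refine ⟨(((n / 2 : ℕ) : ZMod N), false, false), rfl, ?_⟩
          have : n = 2 * (n / 2) := by omega
          conv_rhs => rw [this]
          simp [dbl, nxt, Graph.t]
        · refine ⟨(((n / 2 : ℕ) : ZMod N), true, false), rfl, ?_⟩
          have : n = 2 * (n / 2) + 1 := by omega
          conv_rhs => rw [this]
          simp [dbl, nxt, Graph.t]
  have hs : ∀ a b : ZMod N,
      Relation.ReflTransGen (fun a b => ∃ e, (dbl N).o e = a ∧ (dbl N).t e = b) a b →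
      Relation.ReflTransGen (fun a b => ∃ e, (dbl N).o e = a ∧ (dbl N).t e = b) b a := by
    intro a b h
    induction h with
    | refl => exact Relation.ReflTransGen.refl
    | tail _ h ih =>
      obtain ⟨e, rfl, rfl⟩ := h
      exact Relation.ReflTransGen.head ⟨(dbl N).bar e, rfl, (dbl N).t_bar e⟩ ih
  refine ⟨⟨0⟩, fun u v => ?_⟩
  rw [← ZMod.natCast_zmod_val u, ← ZMod.natCast_zmod_val v]
  exact (hs _ _ (h0 _)).trans (h0 _)

theorem C_le_dbl (hN : 2 ≤ N) : C (N + 1) ≤ 1 - 1 / (13000 * (N : ℝ)) := by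
  have hN' : (2 : ℝ) ≤ N := by exact_mod_cast hN
  have hL : 0 < Real.log 3 := Real.log_pos (by norm_num)
  have hL2 : Real.log 3 ≤ 2 := by
    have := Real.log_le_sub_one_of_pos (show (0 : ℝ) < 3 by norm_num)
    linarith
  have hent := reg_entropy (G := dbl N) (d := 3) (by norm_num) dbl_reg
  have hrk : (dbl N).rank = ((N + 1 : ℕ) : ℤ) := by
    simp only [Graph.rank, Fintype.card_prod, ZMod.card, Fintype.card_bool]
    omega
  have hε : 0 < 1 / (13000 * (N : ℝ)) := by positivity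
  have hεN : 1 / (13000 * (N : ℝ)) * N = 1 / 13000 := by field_simp
  generalize 1 / (13000 * (N : ℝ)) = ε at hε hεN ⊢
  have hε1 : ε ≤ 1 / 26000 := by nlinarith
  refine C_le (by omega) dbl_connected hrk (l := fun _ => Real.log (3 : ℕ))
    (fun _ => ⟨by simpa using hL, rfl⟩) hent (fun v => ⟨(v, false, false), rfl⟩)
    (by linarith) fun e0 s hs hs1 g hg => ?_
  have hw : wt (fun _ : ZMod N × Bool × Bool => Real.log (3 : ℕ)) s
      = fun _ => exp (-(s * Real.log (3 : ℕ))) := rfl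
  rw [hw]
  set u := exp (-(s * Real.log (3 : ℕ))) with hu
  have hu3 : 3 * u = exp ((1 - s) * Real.log 3) := by
    rw [sub_mul 1 s, one_mul, sub_eq_add_neg (Real.log _), exp_add, exp_log (by norm_num), hu]
    norm_num
  have hz0 : 0 ≤ (1 - s) * Real.log 3 := mul_nonneg (by linarith) hL.le
  have hz1 : (1 - s) * Real.log 3 ≤ 2 * ε := by nlinarith
  have hu4 : 1 ≤ 3 * u := hu3 ▸ one_le_exp hz0
  have hu5 : 3 * u ≤ 1 + 4 * ε := by
    rw [hu3]
    refine (Real.exp_bound_div_one_sub_of_interval hz0 (by linarith)).trans ?_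
    rw [div_le_iff₀ (by linarith)]
    nlinarith
  have h3 : 0 < 1 - u ^ 2 := by nlinarith
  have h4 := form_del dbl_reg h3.ne' g e0
  rw [dbl_energy] at h4
  refine (mul_pos_iff_of_pos_left h3).1 ?_
  rw [h4]
  have h5 := dbl_edge g e0
  have h6 := sum_sq_le g ((dbl N).o e0)
  have h7 : 0 < ∑ v, g v ^ 2 := by
    obtain ⟨v, hv⟩ := Function.ne_iff.1 hg
    exact sum_pos' (fun v _ => sq_nonneg _) ⟨v, mem_univ _, by
      have : g v ≠ 0 := hv
      positivity⟩
  generalize ∑ v, g v ^ 2 = Q at h6 h7 ⊢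
  generalize g ((dbl N).o e0) = a at h5 h6 ⊢
  generalize g ((dbl N).t e0) = b at h5 ⊢
  obtain ⟨D, hD⟩ : ∃ D, energy g = D + (a - b) ^ 2 := ⟨energy g - (a - b) ^ 2, by ring⟩
  rw [hD] at h5 h6 ⊢
  have hD0 : 0 ≤ D := by linarith
  have hW : 0 ≤ a ^ 2 + b ^ 2 := by positivity
  have h8 : Q ≤ 771 * N * (D + (a ^ 2 + b ^ 2)) := by
    have : a ^ 2 + (D + (a - b) ^ 2) ≤ 3 * (D + (a ^ 2 + b ^ 2)) := by
      nlinarith [sq_nonneg (a + b), sq_nonneg b]
    nlinarith
  have h9 : ε * Q ≤ 771 / 13000 * (D + (a ^ 2 + b ^ 2)) := by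
    have := mul_le_mul_of_nonneg_left h8 hε.le
    calc ε * Q ≤ 771 * (ε * N) * (D + (a ^ 2 + b ^ 2)) := by linarith
      _ = _ := by rw [hεN]; ring
  have h10 : (1 - u) * (3 * u - 1) ≤ 8 / 3 * ε := by nlinarith
  have h11 : 1 / 6 ≤ u * (1 - u) := by nlinarith
  have h12 := mul_le_mul_of_nonneg_right h10 h7.le
  have h13 := mul_le_mul_of_nonneg_right h11 hW
  have h14 := mul_le_mul_of_nonneg_right (show 1 / 6 ≤ u by linarith) hD0
  have h15 := mul_pos hε h7
  push_cast
  nlinarith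

theorem C_order : ∃ c : ℝ, 0 < c ∧ ∀ r : ℕ, 3 ≤ r → C r ≤ 1 - c / r := by
  refine ⟨1 / 13000, by norm_num, fun r hr => ?_⟩
  obtain ⟨N, rfl⟩ : ∃ N, r = N + 1 := ⟨r - 1, by omega⟩
  have : NeZero N := ⟨by omega⟩
  refine (C_le_dbl (by omega)).trans ?_
  have hN : (0 : ℝ) < N := by exact_mod_cast (by omega : 0 < N)
  have h : 1 / 13000 / ((N + 1 : ℕ) : ℝ) ≤ 1 / (13000 * (N : ℝ)) := by
    rw [div_div]
    push_cast
    exact one_div_le_one_div_of_le (by positivity) (by linarith)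
  linarith

end Pool.Agent.Lib.MP_0a131d_gt
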