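import Mathlib

/-!
The one-edge inequality.
-/

namespace Pool.Agent.Lib.MP_0a131d_gt

open Real

/-- The one-edge inequality, in exponential coordinates. -/
theorem edge_mono (α β L s F γ δ : ℝ) (hα : 0 ≤ α) (hβ : 0 ≤ β) (hL : 0 ≤ L)
    (hs0 : 0 < s) (hs1 : s ≤ 1)
    (hpos : ∀ t, 0 < α * exp (-t) + β * exp t)
    (hF : ∀ t ∈ Set.Icc 0 L, F ≤ ((α * exp (-t) + β * exp t) ^ s) ^ 2) :
    let f : ℝ → ℝ := fun t => α * exp (-t) + β * exp t
    let w : ℝ → ℝ := fun t => (-(α * exp (-t)) + β * exp t) / f t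
    let g : ℝ → ℝ := fun t => f t ^ s
    let k : ℝ → ℝ := fun t => γ * exp (-(s * t)) + δ * exp (s * t)
    let k' : ℝ → ℝ := fun t => -(γ * exp (-(s * t))) + δ * exp (s * t)
    let H : ℝ → ℝ := fun t => w t * g t ^ 2 - (1 - s) * F * w t - (2 * g t * k' t - k t * k' t)
    H 0 ≤ H L := by
  intro f w g k k' H
  have hf : ∀ t, HasDerivAt f (-(α * exp (-t)) + β * exp t) t := by
    intro t
    have h1 : HasDerivAt (fun t => exp (-t)) (exp (-t) * (-1)) t := (hasDerivAt_neg t).exp
    have h2 : HasDerivAt f _ t := (h1.const_mul α).add ((hasDerivAt_exp t).const_mul β)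
    exact h2.congr_deriv (by ring)
  have hf' : ∀ t, HasDerivAt (fun t => -(α * exp (-t)) + β * exp t) (f t) t := by
    intro t
    have h1 : HasDerivAt (fun t => exp (-t)) (exp (-t) * (-1)) t := (hasDerivAt_neg t).exp
    have h2 : HasDerivAt (fun t => -(α * exp (-t)) + β * exp t) _ t :=
      (h1.const_mul α).neg.add ((hasDerivAt_exp t).const_mul β)
    exact h2.congr_deriv (by simp only [f]; ring)
  have hw : ∀ t, HasDerivAt w (1 - w t ^ 2) t := by
    intro t
    have h : HasDerivAt w _ t := (hf' t).div (hf t) (hpos t).ne'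
    refine h.congr_deriv ?_
    have : f t ≠ 0 := (hpos t).ne'
    simp only [w]
    field_simp
  have hg : ∀ t, HasDerivAt g (s * w t * g t) t := by
    intro t
    have h : HasDerivAt g _ t := (hf t).rpow_const (p := s) (Or.inl (hpos t).ne')
    refine h.congr_deriv ?_
    have : f t ≠ 0 := (hpos t).ne'
    simp only [w, g]
    rw [Real.rpow_sub_one this]
    field_simp
  have he1 : ∀ t, HasDerivAt (fun t => exp (-(s * t))) (exp (-(s * t)) * (-s)) t := by
    intro t
    have h1 : HasDerivAt (fun t => -(s * t)) _ t := ((hasDerivAt_id t).const_mul s).neg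
    exact (h1.congr_deriv (by ring)).exp
  have he2 : ∀ t, HasDerivAt (fun t => exp (s * t)) (exp (s * t) * s) t := by
    intro t
    have h1 : HasDerivAt (fun t => s * t) _ t := ((hasDerivAt_id t).const_mul s)
    exact (h1.congr_deriv (by ring)).exp
  have hk : ∀ t, HasDerivAt k (s * k' t) t := by
    intro t
    have h2 : HasDerivAt k _ t := ((he1 t).const_mul γ).add ((he2 t).const_mul δ)
    exact h2.congr_deriv (by simp only [k']; ring)
  have hk' : ∀ t, HasDerivAt k' (s * k t) t := by
    intro t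
    have h2 : HasDerivAt k' _ t := ((he1 t).const_mul γ).neg.add ((he2 t).const_mul δ)
    exact h2.congr_deriv (by simp only [k]; ring)
  have hH : ∀ t, HasDerivAt H
      (s * (w t * g t - k' t) ^ 2 + s * (g t - k t) ^ 2 + (1 - s) * (g t ^ 2 - F) * (1 - w t ^ 2)) t := by
    intro t
    have h1 := (hw t).mul ((hg t).pow 2)
    have h2 := (hw t).const_mul ((1 - s) * F)
    have h3 := (((hg t).const_mul 2).mul (hk' t)).sub ((hk t).mul (hk' t))
    have h4 : HasDerivAt H _ t := (h1.sub h2).sub h3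
    refine h4.congr_deriv ?_
    simp only [Pi.pow_apply]
    push_cast
    ring
  have hw2 : ∀ t, 0 ≤ 1 - w t ^ 2 := by
    intro t
    have h0 := hpos t
    have : w t ^ 2 ≤ 1 := by
      simp only [w, f]
      rw [div_pow, div_le_one (by positivity)]
      have h1 : 0 ≤ α * exp (-t) := by positivity
      have h2 : 0 ≤ β * exp t := by positivity
      nlinarith [mul_nonneg h1 h2]
    linarith
  have hmono : MonotoneOn H (Set.Icc 0 L) := by
    apply monotoneOn_of_deriv_nonneg (convex_Icc 0 L)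
    · exact fun t _ => (hH t).continuousAt.continuousWithinAt
    · exact fun t _ => (hH t).differentiableAt.differentiableWithinAt
    · intro t ht
      rw [(hH t).deriv]
      have h1 : 0 ≤ g t ^ 2 - F := by
        have := hF t (interior_subset ht)
        simp only [g, f]
        linarith
      have h2 := hw2 t
      have h3 : 0 ≤ 1 - s := by linarith
      positivity
  exact hmono ⟨le_refl _, hL⟩ ⟨hL, le_refl _⟩ hL

/-- The one-edge inequality. -/
theorem edge_ineq (α β L s ν : ℝ) (hα : 0 ≤ α) (hβ : 0 ≤ β) (hab : 0 < α + β) (hL : 0 < L)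
    (hs0 : 0 < s) (hs1 : s ≤ 1) (hν0 : 0 ≤ ν) (x X a b : ℝ) (hx : x = exp (-L))
    (hX : X = exp (-(s * L))) (ha : a = α + β * x) (hb : b = β + α * x)
    (hν : ν ≤ x * β * a + x * α * b) :
    x * β / a * (a ^ s) ^ 2 + x * α / b * (b ^ s) ^ 2
      + (1 - s) * ν ^ s * (1 - x * β / a - x * α / b)
      ≤ (X * a ^ s * b ^ s - X ^ 2 * (a ^ s) ^ 2) / (1 - X ^ 2)
        + (X * b ^ s * a ^ s - X ^ 2 * (b ^ s) ^ 2) / (1 - X ^ 2) := by
  have hx0 : 0 < x := hx ▸ exp_pos _
  have hX0 : 0 < X := hX ▸ exp_pos _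
  have hX1 : X < 1 := by
    rw [hX, exp_lt_one_iff]
    have := mul_pos hs0 hL
    linarith
  have hD : 0 < 1 - X ^ 2 := by nlinarith
  have hxL : x * exp L = 1 := by rw [hx, ← exp_add]; simp
  have hXL : X * exp (s * L) = 1 := by rw [hX, ← exp_add]; simp
  have hpos : ∀ t, 0 < α * exp (-t) + β * x * exp t := by
    intro t
    have h1 := exp_pos (-t)
    have h2 := exp_pos t
    rcases hα.lt_or_eq with h | h
    · positivity
    · have : 0 < β := by linarith
      positivity
  have ha0 : 0 < a := by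
    have := hpos 0
    simpa [ha] using this
  have hb0 : 0 < b := by
    have := hpos L
    rw [mul_assoc, hxL, ← hx] at this
    linarith
  set A := a ^ s with hA
  set B := b ^ s with hB
  have key := edge_mono α (β * x) L s (ν ^ s) ((A - X * B) / (1 - X ^ 2))
    ((B - X * A) / (1 - X ^ 2) * X) hα (by positivity) hL.le hs0 hs1 hpos (by
      intro t ht
      have h0 := hpos t
      rw [← Real.rpow_natCast, ← Real.rpow_mul h0.le, mul_comm s, Real.rpow_mul h0.le,
        Real.rpow_natCast]
      apply Real.rpow_le_rpow hν0 _ hs0.le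
      refine hν.trans ?_
      have h1 : x ≤ exp (-t) := by rw [hx]; exact exp_le_exp.2 (by linarith [ht.2])
      have h2 : 1 ≤ exp t := one_le_exp ht.1
      have h3 : exp (-t) * exp t = 1 := by rw [← exp_add]; simp
      have h4 : (α * x) ^ 2 ≤ (α * exp (-t)) ^ 2 := by gcongr
      have h5 : (β * x) ^ 2 ≤ (β * x * exp t) ^ 2 := by
        have : β * x ≤ β * x * exp t := le_mul_of_one_le_right (by positivity) h2
        gcongr
      have h6 : (α * exp (-t) + β * x * exp t) ^ 2
          = (α * exp (-t)) ^ 2 + 2 * α * β * x * (exp (-t) * exp t) + (β * x * exp t) ^ 2 := by ring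
      rw [h6, h3, ha, hb]
      nlinarith)
  simp only [neg_zero, exp_zero, mul_one, mul_zero] at key
  rw [← hx, ← hX, mul_assoc β x (exp L), hxL, mul_assoc _ X (exp (s * L)), hXL] at key
  simp only [mul_one] at key
  rw [← ha, show α * x + β = b by rw [hb]; ring, ← hA, ← hB] at key
  have e1 : (-α + β * x) / a = 2 * (x * β / a) - 1 := by
    field_simp
    rw [ha]; ring
  have e2 : (-(α * x) + β) / b = 1 - 2 * (x * α / b) := by
    field_simp
    rw [hb]; ring
  rw [e1, e2] at key
  have e3 : (A - X * B) / (1 - X ^ 2) + (B - X * A) / (1 - X ^ 2) * X = A := by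
    field_simp
    ring
  have e4 : (A - X * B) / (1 - X ^ 2) * X + (B - X * A) / (1 - X ^ 2) = B := by
    field_simp
    ring
  rw [e3, e4] at key
  have e5 : A * (-((A - X * B) / (1 - X ^ 2)) + (B - X * A) / (1 - X ^ 2) * X)
      - B * (-((A - X * B) / (1 - X ^ 2) * X) + (B - X * A) / (1 - X ^ 2))
      = 2 * ((X * A * B - X ^ 2 * A ^ 2) / (1 - X ^ 2) + (X * B * A - X ^ 2 * B ^ 2) / (1 - X ^ 2))
        - A ^ 2 - B ^ 2 := by
    field_simp
    ring
  nlinarith [key, e5]

end Pool.Agent.Lib.MP_0a131d_gt
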