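import Pool.Agent.Lib.MP_0a131d_gt.Form

/-!
The entropy exists and is the threshold of positivity of the vertex form.
-/

namespace Pool.Agent.Lib.MP_0a131d_gt

open Real Filter Topology

open scoped Classical

variable {V E : Type}

/-- The weights at parameter `s`. -/
noncomputable def wt (l : E → ℝ) (s : ℝ) (e : E) : ℝ := exp (-(s * l e))

theorem adm_wt {G : Graph V E} {l : E → ℝ} (hl : G.IsLength l) {s : ℝ} (hs : 0 < s) :
    Adm G (wt l s) := by
  intro e
  refine ⟨exp_pos _, ?_, ?_⟩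
  · rw [wt, exp_lt_one_iff]
    have := mul_pos hs (hl e).1
    linarith
  · simp only [wt, (hl e).2]

theorem isChain_and_mem {R : E → E → Prop} {P : E → Prop} (a : E) (m : List E) :
    List.IsChain (fun e e' => R e e' ∧ P e') (a :: m) ↔ List.IsChain R (a :: m) ∧ ∀ e ∈ m, P e := by
  induction m generalizing a with
  | nil => simp
  | cons b m ih =>
    rw [List.isChain_cons_cons, List.isChain_cons_cons, ih]
    simp only [List.mem_cons, forall_eq_or_imp]
    tauto

theorem circuits_eq (G : Graph V E) (T : Finset E) (l : E → ℝ) (x : ℝ) :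
    G.circuits (T : Set E) l x = cycs (fun e e' => G.Next e e' ∧ e' ∈ T) l x := by
  ext c
  simp only [Graph.circuits, cycs, Set.mem_ofPred_eq]
  induction c using Cycle.induction_on with
  | nil => simp
  | cons a p _ =>
    rw [Cycle.chain_coe_cons, Cycle.chain_coe_cons, isChain_and_mem]
    simp only [Cycle.mem_coe_iff, List.mem_cons, Finset.mem_coe, List.mem_append,
      List.not_mem_nil, or_false]
    constructor
    · rintro ⟨h1, h2, h3, h4⟩
      exact ⟨h1, ⟨h2, fun e he => h3 e he.symm⟩, h4⟩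
    · rintro ⟨h1, ⟨h2, h3⟩, h4⟩
      exact ⟨h1, h2, fun e he => h3 e he.symm, h4⟩

variable [Fintype V] [Fintype E]

omit [Fintype V] in
theorem filter_next (G : Graph V E) (T : Finset E) (e : E) :
    Finset.univ.filter (fun e' => G.Next e e' ∧ e' ∈ T) = T.filter (fun e' => G.Next e e') := by
  ext e'
  simp [and_comm]

omit [Fintype V] in
theorem lower_of_kernel {G : Graph V E} {T : Finset E} (hT : ∀ e ∈ T, G.bar e ∈ T)
    {l : E → ℝ} (hl : G.IsLength l) {s : ℝ} (hs : 0 < s) {f : V → ℝ} (hf0 : ∀ v, 0 ≤ f v)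
    (hf1 : ∃ v, 0 < f v) (hf : ∀ v, lap G T (wt l s) f v = 0) {u : ℝ} (hu : u < s) :
    ∀ᶠ x in atTop, u < Real.log ((G.circuits (T : Set E) l x).ncard : ℝ) / x := by
  have hx := adm_wt hl hs
  have ha := amp_nonneg hT hx hf0 (fun v => (hf v).ge)
  set β : E → ℝ := fun e => ∑ e' ∈ T.filter (fun e' => G.Next e e'),
    wt l s e' * amp G (wt l s) f e' with hβ
  have hβT : ∀ e ∈ T, β e = amp G (wt l s) f e := by
    intro e he
    rw [amp_eq hT hx f he, hf, zero_add]
  simp only [circuits_eq]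
  refine growth_lower _ (fun e => (hl e).1) hs.le (β := β) ?_ ?_ ?_ hu
  · intro e
    exact Finset.sum_nonneg (fun e' he' => mul_nonneg (hx e').1.le (ha e' (Finset.mem_filter.1 he').1))
  · obtain ⟨v, hv⟩ := hf1
    have h1 := hf v
    rw [lap, sub_eq_zero] at h1
    rw [h1] at hv
    obtain ⟨e, he, h2⟩ : ∃ e ∈ T.filter (fun e => G.o e = v),
        0 < wt l s e * amp G (wt l s) f e := by
      by_contra hc
      push Not at hc
      have := Finset.sum_nonpos hc
      linarith
    refine ⟨e, ?_⟩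
    rw [hβT e (Finset.mem_filter.1 he).1]
    exact (mul_pos_iff_of_pos_left (hx e).1).1 h2
  · intro e
    apply le_of_eq
    have := filter_next G T e
    refine (Finset.sum_congr (by convert this) (fun e' he' => ?_)).symm
    rw [hβT e' (Finset.mem_filter.1 he').1, wt]

theorem upper_of_posdef {G : Graph V E} {T : Finset E} (hT : ∀ e ∈ T, G.bar e ∈ T)
    {l : E → ℝ} (hl : G.IsLength l) {s : ℝ} (hs : 0 < s)
    (hpd : ∀ g, g ≠ 0 → 0 < form G T (wt l s) g g) {u : ℝ} (hu : s < u) :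
    ∀ᶠ x in atTop, Real.log ((G.circuits (T : Set E) l x).ncard : ℝ) / x < u := by
  have hx := adm_wt hl hs
  obtain ⟨f, hf0, hf⟩ := exists_super hx hpd
  have ha := amp_nonneg hT hx hf0 (fun v => by rw [hf v]; exact zero_le_one)
  set β : E → ℝ := fun e => 1 + ∑ e' ∈ T.filter (fun e' => G.Next e e'),
    wt l s e' * amp G (wt l s) f e' with hβ
  have hβT : ∀ e ∈ T, β e = amp G (wt l s) f e := by
    intro e he
    rw [amp_eq hT hx f he, hf]
  simp only [circuits_eq]
  refine growth_upper _ (fun e => (hl e).1) hs.le (β := β) ?_ ?_ hu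
  · intro e
    have := Finset.sum_nonneg (s := T.filter (fun e' => G.Next e e'))
      (fun e' he' => mul_nonneg (hx e').1.le (ha e' (Finset.mem_filter.1 he').1))
    simp only [hβ]
    linarith
  · intro e
    apply le_of_eq
    have := filter_next G T e
    simp only [hβ]
    congr 1
    refine (Finset.sum_congr (by convert this) (fun e' he' => ?_))
    have h2 := hβT e' (Finset.mem_filter.1 he').1
    simp only [hβ] at h2
    rw [h2, wt]

omit [Fintype E] in
theorem form_contOn {G : Graph V E} (T : Finset E) {l : E → ℝ} (hl : G.IsLength l) :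
    ContinuousOn (fun p : ℝ × (V → ℝ) => form G T (wt l p.1) p.2 p.2) {p | 0 < p.1} := by
  simp only [form, amp]
  refine ContinuousOn.sub (by fun_prop) (continuousOn_finsetSum _ (fun e _ => ?_))
  refine ContinuousOn.mul (by fun_prop) (ContinuousOn.mul (by unfold wt; fun_prop) ?_)
  refine ContinuousOn.div (by unfold wt; fun_prop) (by unfold wt; fun_prop) ?_
  intro p hp
  exact ((adm_wt hl hp).den e).ne'

omit [Fintype E] in
theorem posdef_large {G : Graph V E} (T : Finset E) {l : E → ℝ} (hl : G.IsLength l) :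
    ∃ S : ℝ, 0 < S ∧ ∀ s, S ≤ s → ∀ g, g ≠ 0 → 0 < form G T (wt l s) g g := by
  have t1 : ∀ e, Tendsto (fun s => wt l s e) atTop (𝓝 0) := by
    intro e
    exact tendsto_exp_neg_atTop_nhds_zero.comp (tendsto_id.atTop_mul_const (hl e).1)
  have t2 : Tendsto (fun s => ∑ e ∈ T, wt l s e / (1 - wt l s e ^ 2)) atTop (𝓝 0) := by
    have := tendsto_finsetSum T (fun e _ => (t1 e).div
      ((tendsto_const_nhds (x := (1 : ℝ))).sub ((t1 e).pow 2)) (by norm_num))
    simpa using this
  obtain ⟨S, hS⟩ := eventually_atTop.1 ((t2.eventually (gt_mem_nhds one_pos)).and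
    (eventually_gt_atTop 0))
  refine ⟨S, (hS S le_rfl).2, fun s hs g hg => ?_⟩
  obtain ⟨h1, h2⟩ := hS s hs
  have hx := adm_wt hl h2
  set N := ∑ v, g v * g v with hN
  have hNv : ∀ v, g v * g v ≤ N := fun v =>
    Finset.single_le_sum (f := fun v => g v * g v) (fun v _ => mul_self_nonneg _) (Finset.mem_univ v)
  have hN0 : 0 < N := by
    obtain ⟨v, hv⟩ := Function.ne_iff.1 hg
    exact (mul_self_pos.2 hv).trans_le (hNv v)
  have h3 : ∑ e ∈ T, g (G.o e) * (wt l s e * amp G (wt l s) g e)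
      ≤ ∑ e ∈ T, wt l s e / (1 - wt l s e ^ 2) * N := by
    refine Finset.sum_le_sum (fun e _ => ?_)
    have h4 := hx.den e
    have h5 := (hx e).1
    have h6 : g (G.o e) * (wt l s e * amp G (wt l s) g e)
        = wt l s e / (1 - wt l s e ^ 2) * (g (G.o e) * g (G.t e)
          - wt l s e * (g (G.o e) * g (G.o e))) := by
      simp only [amp]; ring
    rw [h6]
    apply mul_le_mul_of_nonneg_left _ (by positivity)
    have h7 := hNv (G.o e)
    have h8 := hNv (G.t e)
    have h9 := mul_nonneg h5.le (mul_self_nonneg (g (G.o e)))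
    nlinarith [mul_self_nonneg (g (G.o e) - g (G.t e))]
  rw [← Finset.sum_mul] at h3
  rw [form, ← hN]
  nlinarith

omit [Fintype E] in
theorem psd_of_posdef_above {G : Graph V E} (T : Finset E) {l : E → ℝ} (hl : G.IsLength l)
    {s : ℝ} (hs : 0 < s) (h : ∀ s', s < s' → ∀ g, g ≠ 0 → 0 < form G T (wt l s') g g) (g : V → ℝ) :
    0 ≤ form G T (wt l s) g g := by
  by_cases hg : g = 0
  · simp [hg, form]
  have h1 : ContinuousAt (fun p : ℝ × (V → ℝ) => form G T (wt l p.1) p.2 p.2) (s, g) :=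
    (form_contOn T hl).continuousAt ((isOpen_lt continuous_const continuous_fst).mem_nhds hs)
  have h2 : ContinuousAt (fun s' : ℝ => form G T (wt l s') g g) s :=
    ContinuousAt.comp (f := fun s' : ℝ => (s', g)) h1 (by fun_prop)
  have h3 : Tendsto (fun s' : ℝ => form G T (wt l s') g g) (𝓝[>] s) (𝓝 (form G T (wt l s) g g)) :=
    h2.tendsto.mono_left nhdsWithin_le_nhds
  refine ge_of_tendsto h3 ?_
  filter_upwards [self_mem_nhdsWithin] with s' hs'
  exact (h s' hs' g hg).le

omit [Fintype E] in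
theorem exists_top {G : Graph V E} (T : Finset E) {l : E → ℝ} (hl : G.IsLength l)
    {s0 : ℝ} (hs0 : 0 < s0) {g0 : V → ℝ} (hg0 : g0 ≠ 0) (h0 : form G T (wt l s0) g0 g0 ≤ 0) :
    ∃ s, s0 ≤ s ∧ (∃ g, g ≠ 0 ∧ form G T (wt l s) g g ≤ 0) ∧
      ∀ s', s < s' → ∀ g, g ≠ 0 → 0 < form G T (wt l s') g g := by
  obtain ⟨S, hS0, hS⟩ := posdef_large T hl
  have norm1 : ∀ s g, g ≠ 0 → form G T (wt l s) g g ≤ 0 →
      ∃ g' ∈ Metric.sphere (0 : V → ℝ) 1, form G T (wt l s) g' g' ≤ 0 := by
    intro s g hg h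
    have hn : 0 < ‖g‖ := norm_pos_iff.2 hg
    refine ⟨‖g‖⁻¹ • g, ?_, ?_⟩
    · simp [norm_smul, hn.ne']
    · rw [form_smul]
      exact mul_nonpos_of_nonneg_of_nonpos (by positivity) h
  set K0 : Set (ℝ × (V → ℝ)) := Set.Icc s0 S ×ˢ Metric.sphere (0 : V → ℝ) 1 with hK0
  have hK0c : IsCompact K0 := isCompact_Icc.prod (isCompact_sphere _ _)
  have hsub : K0 ⊆ {p | 0 < p.1} := fun p hp => hs0.trans_le hp.1.1
  set K := K0 ∩ (fun p : ℝ × (V → ℝ) => form G T (wt l p.1) p.2 p.2) ⁻¹' Set.Iic 0 with hK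
  have hKc : IsCompact K :=
    hK0c.of_isClosed_subset (((form_contOn T hl).mono hsub).preimage_isClosed_of_isClosed
      hK0c.isClosed isClosed_Iic) Set.inter_subset_left
  have hmem : ∀ s g, s0 ≤ s → g ≠ 0 → form G T (wt l s) g g ≤ 0 → ∃ g', (s, g') ∈ K := by
    intro s g h1 h2 h3
    obtain ⟨g', h4, h5⟩ := norm1 s g h2 h3
    refine ⟨g', ⟨⟨h1, ?_⟩, h4⟩, h5⟩
    by_contra hc
    have := hS s (not_le.1 hc).le g h2
    linarith
  obtain ⟨g1, hg1⟩ := hmem s0 g0 le_rfl hg0 h0
  obtain ⟨p, hp, hmax⟩ := hKc.exists_isMaxOn ⟨_, hg1⟩ continuous_fst.continuousOn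
  refine ⟨p.1, hp.1.1.1, ⟨p.2, ?_, hp.2⟩, fun s' hs' g hg => ?_⟩
  · intro h
    have := hp.1.2
    rw [h] at this
    simp at this
  · by_contra hc
    obtain ⟨g', hg'⟩ := hmem s' g (hp.1.1.1.trans hs'.le) hg (not_lt.1 hc)
    have := hmax hg'
    simp only [Set.mem_ofPred_eq] at this
    linarith

theorem entropy_spec {G : Graph V E} {T : Finset E} (hT : ∀ e ∈ T, G.bar e ∈ T)
    {l : E → ℝ} (hl : G.IsLength l) :
    ∃ h : ℝ, G.HasEntropy (T : Set E) l h ∧ 0 ≤ h ∧
      ∀ s, 0 < s → (s ≤ h ↔ ∃ g, g ≠ 0 ∧ form G T (wt l s) g g ≤ 0) := by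
  by_cases hex : ∃ s, 0 < s ∧ ∃ g, g ≠ 0 ∧ form G T (wt l s) g g ≤ 0
  · obtain ⟨s0, hs0, g0, hg0, h0⟩ := hex
    obtain ⟨h, h1, ⟨g, hg, h2⟩, h3⟩ := exists_top T hl hs0 hg0 h0
    have hh : 0 < h := hs0.trans_le h1
    obtain ⟨f, hf0, hf1, hf⟩ := exists_kernel hT (adm_wt hl hh)
      (psd_of_posdef_above T hl hh h3) hg h2
    have hent : G.HasEntropy (T : Set E) l h := by
      refine tendsto_order.2 ⟨fun u hu => lower_of_kernel hT hl hh hf0 hf1 hf hu, fun u hu => ?_⟩
      exact upper_of_posdef hT hl (s := (h + u) / 2) (by linarith) (h3 _ (by linarith))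
        (by linarith)
    refine ⟨h, hent, hh.le, fun s hs => ⟨fun hsh => ?_, ?_⟩⟩
    · rcases hsh.lt_or_eq with h4 | h4
      · by_contra hc
        push Not at hc
        have h5 := upper_of_posdef hT hl hs hc (u := (s + h) / 2) (by linarith)
        have h6 := lower_of_kernel hT hl hh hf0 hf1 hf (u := (s + h) / 2) (by linarith)
        obtain ⟨x, h7, h8⟩ := (h5.and h6).exists
        linarith
      · exact ⟨g, hg, h4 ▸ h2⟩
    · rintro ⟨g', hg', h4⟩
      by_contra hc
      have := h3 s (not_le.1 hc) g' hg'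
      linarith
  · push Not at hex
    refine ⟨0, ?_, le_rfl, fun s hs => ⟨fun h => absurd h (not_le.2 hs), ?_⟩⟩
    · refine tendsto_order.2 ⟨fun u hu => ?_, fun u hu => ?_⟩
      · filter_upwards [eventually_gt_atTop 0] with x hx
        exact hu.trans_le (div_nonneg (Real.log_natCast_nonneg _) hx.le)
      · exact upper_of_posdef hT hl (s := u / 2) (by linarith) (hex _ (by linarith)) (by linarith)
    · rintro ⟨g, hg, h⟩
      have := hex s hs g hg
      linarith

end Pool.Agent.Lib.MP_0a131d_gt
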