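import Pool.Agent.Lib.MP_0a131d_gt.Count

/-!
Exponential growth of the number of circuits from sub- and super-eigenvectors.
-/

namespace Pool.Agent.Lib.MP_0a131d_gt

open Real Filter Topology

open scoped Classical

variable {E : Type}

theorem exists_list_of_transGen {R : E → E → Prop} {a b : E} (h : Relation.TransGen R a b) :
    ∃ p : List E, List.IsChain R (a :: (p ++ [b])) := by
  induction h using Relation.TransGen.head_induction_on with
  | single h => exact ⟨[], by simpa using h⟩
  | head h _ ih =>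
    obtain ⟨p, hp⟩ := ih
    exact ⟨_ :: p, List.isChain_cons_cons.2 ⟨h, hp⟩⟩

theorem reach_getLast {R : E → E → Prop} {a : E} {p : List E} (h : List.IsChain R (a :: p)) :
    Relation.ReflTransGen R a ((a :: p).getLast (List.cons_ne_nil _ _)) := by
  induction p generalizing a with
  | nil => exact Relation.ReflTransGen.refl
  | cons b p ih =>
    rw [List.isChain_cons_cons] at h
    rw [List.getLast_cons_cons]
    exact Relation.ReflTransGen.head h.1 (ih h.2)

theorem chain_glue {R : E → E → Prop} {a : E} {p q : List E} (h : List.IsChain R (a :: p))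
    (h' : List.IsChain R ((a :: p).getLast (List.cons_ne_nil _ _) :: q)) :
    List.IsChain R (a :: (p ++ q)) := by
  induction p generalizing a with
  | nil => simpa using h'
  | cons b p ih =>
    rw [List.isChain_cons_cons] at h
    rw [List.getLast_cons_cons] at h'
    exact List.isChain_cons_cons.2 ⟨h.1, ih h.2 h'⟩

variable [Fintype E]

theorem cycs_lower (R : E → E → Prop) {l : E → ℝ} (hl : ∀ e, 0 < l e) {s : ℝ} (hs : 0 ≤ s)
    {β : E → ℝ} (hβ0 : ∀ e, 0 ≤ β e) (hβ1 : ∃ e, 0 < β e)
    (hβ : ∀ e, β e ≤ ∑ e' ∈ Finset.univ.filter (fun e' => R e e'), exp (-(s * l e')) * β e') :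
    ∃ c D m : ℝ, 0 < c ∧ 0 ≤ D ∧ 0 < m ∧ ∀ x, 0 ≤ x →
      c * exp (s * x) ≤ ((x + D) / m + 1) ^ 2 * ((cycs R l (x + D)).ncard : ℝ) := by
  obtain ⟨m, hm0, hm⟩ := exists_min hl
  set R' : E → E → Prop := fun e e' => R e e' ∧ 0 < β e' with hR'
  have hβ' : ∀ e, β e ≤ ∑ e' ∈ Finset.univ.filter (fun e' => R' e e'),
      exp (-(s * l e')) * β e' := by
    intro e
    refine (hβ e).trans (le_of_eq ?_)
    symm
    apply Finset.sum_subset
    · intro e' he'
      simp only [Finset.mem_filter, Finset.mem_univ, true_and] at he' ⊢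
      exact he'.1
    · intro e' h1 h2
      simp only [Finset.mem_filter, Finset.mem_univ, true_and, hR', not_and, not_lt] at h1 h2
      rw [le_antisymm (h2 h1) (hβ0 e'), mul_zero]
  have hsucc : ∀ e, 0 < β e → ∃ e', R' e e' := by
    intro e he
    by_contra hcon
    have : Finset.univ.filter (fun e' => R' e e') = ∅ := by
      rw [Finset.filter_eq_empty_iff]
      intro e' _ h
      exact hcon ⟨e', h⟩
    have h2 := hβ' e
    rw [this, Finset.sum_empty] at h2
    linarith
  obtain ⟨c, hc0, hc⟩ := paths_lower R' hl hs hβ0 (fun e => by convert hβ' e)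
  let Reach : E → Set E := fun e => {e' | Relation.ReflTransGen R' e e'}
  obtain ⟨e0, he0, hmin⟩ := Set.exists_min_image {e | 0 < β e} (fun e => (Reach e).ncard)
    (Set.toFinite _) hβ1
  have hpos : ∀ e ∈ Reach e0, 0 < β e := by
    intro e he
    induction he with
    | refl => exact he0
    | tail _ h _ => exact h.2
  have hback : ∀ e ∈ Reach e0, Relation.ReflTransGen R' e e0 := by
    intro e he
    have h1 : Reach e ⊆ Reach e0 := fun e' he' => Relation.ReflTransGen.trans he he'
    have h2 : Reach e = Reach e0 :=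
      Set.eq_of_subset_of_ncard_le h1 (hmin e (hpos e he)) (Set.toFinite _)
    have h3 : e0 ∈ Reach e0 := Relation.ReflTransGen.refl
    rw [← h2] at h3
    exact h3
  have hret : ∀ e, ∃ p : List E, e ∈ Reach e0 → List.IsChain R' (e :: (p ++ [e0])) := by
    intro e
    by_cases he : e ∈ Reach e0
    · obtain ⟨e', he'⟩ := hsucc e (hpos e he)
      have h1 : e' ∈ Reach e0 := Relation.ReflTransGen.tail he he'
      obtain ⟨p, hp⟩ := exists_list_of_transGen (Relation.TransGen.head' he' (hback e' h1))
      exact ⟨p, fun _ => hp⟩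
    · exact ⟨[], fun h => (he h).elim⟩
  choose ρ hρ using hret
  set D := l e0 + ∑ e, ((ρ e).map l).sum with hD
  have hDe : ∀ e, l e0 + ((ρ e).map l).sum ≤ D := fun e => by
    have := Finset.single_le_sum (f := fun e => ((ρ e).map l).sum)
      (fun e _ => sum_nonneg' hl (ρ e)) (Finset.mem_univ e)
    simp only [hD]
    linarith
  have hD0 : 0 ≤ D := by
    have h1 := hDe e0
    have h2 := sum_nonneg' hl (ρ e0)
    have h3 := hl e0
    linarith
  refine ⟨c * β e0, D, m, mul_pos hc0 he0, hD0, hm0, fun x hx => (hc e0 x hx).trans ?_⟩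
  set n := ⌊(x + D) / m⌋₊ with hn
  have hsub : paths R' l e0 x ⊆
      (fun q : Cycle E × ℕ × ℕ => (((Quotient.out q.1 : List E).rotate q.2.1).tail.take q.2.2)) ''
        ((cycs R l (x + D)) ×ˢ ((Finset.range (n + 1) : Set ℕ) ×ˢ (Finset.range (n + 1) : Set ℕ))) := by
    intro p hp
    obtain ⟨hp1, hp2⟩ := hp
    set z := (e0 :: p).getLast (List.cons_ne_nil _ _) with hz
    have hzr : z ∈ Reach e0 := reach_getLast hp1
    set L : List E := e0 :: (p ++ ρ z) with hL
    have hLsum : (L.map l).sum ≤ x + D := by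
      simp only [hL, List.map_cons, List.map_append, List.sum_cons, List.sum_append]
      have := hDe z
      linarith
    have hLlen : L.length ≤ n := length_le_floor hm0 hm hLsum
    have hch : List.IsChain R' (e0 :: (p ++ (ρ z ++ [e0]))) := chain_glue hp1 (hρ z hzr)
    have hmem : (L : Cycle E) ∈ cycs R l (x + D) := by
      refine ⟨by simp [hL], ?_, ?_⟩
      · rw [hL, Cycle.chain_coe_cons, List.append_assoc]
        exact hch.imp (fun _ _ h => h.1)
      · simpa using hLsum
    have hrot : (Quotient.out (L : Cycle E) : List E) ~r L :=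
      Quotient.exact (Quotient.out_eq (L : Cycle E))
    obtain ⟨i, hi, hi'⟩ := List.isRotated_iff_mod.1 hrot
    have hlen := hrot.perm.length_eq
    refine ⟨((L : Cycle E), i, p.length), ⟨hmem, ?_, ?_⟩, ?_⟩
    · simp only [Finset.coe_range, Set.mem_Iio]
      omega
    · simp only [Finset.coe_range, Set.mem_Iio]
      have : L.length = p.length + (ρ z).length + 1 := by simp [hL]
      omega
    · simp only [hi']
      simp [hL]
  have hfin : ((cycs R l (x + D)) ×ˢ ((Finset.range (n + 1) : Set ℕ) ×ˢ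
      (Finset.range (n + 1) : Set ℕ))).Finite :=
    (cycs_finite R hl _).prod ((Finset.finite_toSet _).prod (Finset.finite_toSet _))
  have h1 := (Set.ncard_le_ncard hsub (hfin.image _)).trans (Set.ncard_image_le hfin)
  rw [Set.ncard_prod, Set.ncard_prod, Set.ncard_coe_finset, Finset.card_range] at h1
  have h2 : ((paths R' l e0 x).ncard : ℝ) ≤ (cycs R l (x + D)).ncard * ((n + 1) * (n + 1)) := by
    exact_mod_cast h1
  have h3 : (n : ℝ) ≤ (x + D) / m := Nat.floor_le (by positivity)
  have h4 : ((n : ℝ) + 1) * (n + 1) ≤ ((x + D) / m + 1) ^ 2 := by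
    rw [sq]
    gcongr
  calc ((paths R' l e0 x).ncard : ℝ) ≤ (cycs R l (x + D)).ncard * ((n + 1) * (n + 1)) := h2
    _ ≤ (cycs R l (x + D)).ncard * ((x + D) / m + 1) ^ 2 := by gcongr
    _ = _ := by ring

theorem growth_lower (R : E → E → Prop) {l : E → ℝ} (hl : ∀ e, 0 < l e) {s : ℝ} (hs : 0 ≤ s)
    {β : E → ℝ} (hβ0 : ∀ e, 0 ≤ β e) (hβ1 : ∃ e, 0 < β e)
    (hβ : ∀ e, β e ≤ ∑ e' ∈ Finset.univ.filter (fun e' => R e e'), exp (-(s * l e')) * β e')
    {u : ℝ} (hu : u < s) :
    ∀ᶠ x in atTop, u < Real.log ((cycs R l x).ncard : ℝ) / x := by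
  obtain ⟨c, D, m, hc, hD, hm, h⟩ := cycs_lower R hl hs hβ0 hβ1 hβ
  have t1 : Tendsto (fun x : ℝ => (Real.log c - s * D) / x) atTop (𝓝 0) :=
    tendsto_const_nhds.div_atTop tendsto_id
  have t2 : Tendsto (fun x : ℝ => Real.log (x / m + 1) / x) atTop (𝓝 0) := by
    have h1 : Tendsto (fun x : ℝ => x / m + 1) atTop atTop :=
      tendsto_atTop_add_const_right _ _ (tendsto_id.atTop_div_const hm)
    have h2 := (Real.tendsto_pow_log_div_mul_add_atTop m (-m) 1 hm.ne').comp h1
    refine h2.congr (fun x => ?_)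
    simp only [Function.comp, pow_one]
    congr 1
    field_simp
    ring
  have t3 : Tendsto (fun x : ℝ => s + (Real.log c - s * D) / x - 2 * (Real.log (x / m + 1) / x))
      atTop (𝓝 s) := by
    simpa using (tendsto_const_nhds.add t1).sub (t2.const_mul 2)
  filter_upwards [t3.eventually (lt_mem_nhds hu), eventually_ge_atTop D, eventually_gt_atTop 0]
    with x h1 h2 h3
  refine h1.trans_le ?_
  have h4 := h (x - D) (by linarith)
  rw [sub_add_cancel] at h4
  have h5 : 0 < x / m + 1 := by positivity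
  have h6 : 0 < c * exp (s * (x - D)) := by positivity
  have h7 : (0 : ℝ) < (cycs R l x).ncard := by
    by_contra hcon
    have : ((cycs R l x).ncard : ℝ) = 0 := le_antisymm (not_lt.1 hcon) (Nat.cast_nonneg _)
    rw [this, mul_zero] at h4
    linarith
  have h8 := Real.log_le_log h6 h4
  rw [Real.log_mul hc.ne' (exp_pos _).ne', Real.log_exp, Real.log_mul (by positivity) h7.ne',
    Real.log_pow] at h8
  rw [le_div_iff₀ h3]
  have : (s + (Real.log c - s * D) / x - 2 * (Real.log (x / m + 1) / x)) * x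
      = s * x + (Real.log c - s * D) - 2 * Real.log (x / m + 1) := by
    field_simp
  rw [this]
  push_cast at h8
  linarith

theorem growth_upper (R : E → E → Prop) {l : E → ℝ} (hl : ∀ e, 0 < l e) {s : ℝ} (hs : 0 ≤ s)
    {β : E → ℝ} (hβ0 : ∀ e, 0 ≤ β e)
    (hβ : ∀ e, 1 + ∑ e' ∈ Finset.univ.filter (fun e' => R e e'), exp (-(s * l e')) * β e' ≤ β e)
    {u : ℝ} (hu : s < u) :
    ∀ᶠ x in atTop, Real.log ((cycs R l x).ncard : ℝ) / x < u := by
  set B := 1 + ∑ e, β e with hB
  have hB1 : 1 ≤ B := by
    have := Finset.sum_nonneg (s := Finset.univ) (f := β) (fun e _ => hβ0 e)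
    linarith
  have t1 : Tendsto (fun x : ℝ => s + Real.log B / x) atTop (𝓝 s) := by
    simpa using tendsto_const_nhds.add
      ((tendsto_const_nhds (x := Real.log B)).div_atTop (tendsto_id (x := atTop)))
  filter_upwards [t1.eventually (gt_mem_nhds hu), eventually_gt_atTop 0] with x h1 h3
  refine lt_of_le_of_lt ?_ h1
  have h4 : ((cycs R l x).ncard : ℝ) ≤ B * exp (s * x) := by
    have h5 : ((cycs R l x).ncard : ℝ) ≤ ∑ a, ((paths R l a x).ncard : ℝ) := by
      exact_mod_cast cycs_le R hl x
    have h6 : ∑ a, ((paths R l a x).ncard : ℝ) ≤ ∑ a, β a * exp (s * x) :=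
      Finset.sum_le_sum (fun a _ => paths_upper R hl hs hβ0 hβ a x)
    rw [← Finset.sum_mul] at h6
    have := exp_pos (s * x)
    nlinarith
  have h7 : Real.log ((cycs R l x).ncard : ℝ) ≤ Real.log B + s * x := by
    rcases Nat.eq_zero_or_pos (cycs R l x).ncard with h | h
    · rw [h]
      have := Real.log_nonneg hB1
      simp only [Nat.cast_zero, Real.log_zero]
      positivity
    · have := Real.log_le_log (by exact_mod_cast h) h4
      rwa [Real.log_mul (by positivity) (exp_pos _).ne', Real.log_exp] at this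
  rw [div_le_iff₀ h3]
  have : (s + Real.log B / x) * x = Real.log B + s * x := by
    field_simp
    ring
  linarith

end Pool.Agent.Lib.MP_0a131d_gt
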