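import Pool.Agent.Lib.MP_0a131d_gt.Defs
import Pool.Agent.Lib.MP_0a131d_gt.Growth

/-!
The vertex quadratic form attached to edge weights, and the edge eigenvectors it produces.
-/

namespace Pool.Agent.Lib.MP_0a131d_gt

open Real Filter Topology

open scoped Classical

variable {V E : Type}

theorem Graph.t_bar (G : Graph V E) (e : E) : G.t (G.bar e) = G.o e := by
  simp [Graph.t, G.bar_bar]

theorem Graph.o_bar (G : Graph V E) (e : E) : G.o (G.bar e) = G.t e := rfl

theorem Graph.bar_inj (G : Graph V E) : Function.Injective G.bar :=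
  Function.LeftInverse.injective G.bar_bar

theorem Graph.sum_bar (G : Graph V E) {T : Finset E} (hT : ∀ e ∈ T, G.bar e ∈ T) (F : E → ℝ) :
    ∑ e ∈ T, F (G.bar e) = ∑ e ∈ T, F e := by
  refine Finset.sum_bij' (fun e _ => G.bar e) (fun e _ => G.bar e) hT hT ?_ ?_ ?_
  · intro e _; exact G.bar_bar e
  · intro e _; exact G.bar_bar e
  · intro e _; rfl

/-- Edge amplitude attached to a vertex function. -/
noncomputable def amp (G : Graph V E) (x : E → ℝ) (f : V → ℝ) (e : E) : ℝ :=
  (f (G.t e) - x e * f (G.o e)) / (1 - x e ^ 2)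

/-- The vertex operator. -/
noncomputable def lap (G : Graph V E) (T : Finset E) (x : E → ℝ) (f : V → ℝ) (v : V) : ℝ :=
  f v - ∑ e ∈ T.filter (fun e => G.o e = v), x e * amp G x f e

/-- The vertex bilinear form. -/
noncomputable def form [Fintype V] (G : Graph V E) (T : Finset E) (x : E → ℝ) (g h : V → ℝ) : ℝ :=
  ∑ v, g v * h v - ∑ e ∈ T, g (G.o e) * (x e * amp G x h e)

/-- Admissible weights. -/
def Adm (G : Graph V E) (x : E → ℝ) : Prop :=
  ∀ e, 0 < x e ∧ x e < 1 ∧ x (G.bar e) = x e

theorem Adm.den {G : Graph V E} {x : E → ℝ} (hx : Adm G x) (e : E) : 0 < 1 - x e ^ 2 := by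
  obtain ⟨h1, h2, -⟩ := hx e
  nlinarith

theorem amp_add_bar {G : Graph V E} {x : E → ℝ} (hx : Adm G x) (f : V → ℝ) (e : E) :
    amp G x f e + x e * amp G x f (G.bar e) = f (G.t e) := by
  have := (hx.den e).ne'
  simp only [amp, G.t_bar, G.o_bar, (hx e).2.2]
  field_simp
  ring

theorem form_eq [Fintype V] (G : Graph V E) (T : Finset E) (x : E → ℝ) (g h : V → ℝ) :
    form G T x g h = ∑ v, g v * lap G T x h v := by
  simp only [form, lap, mul_sub, Finset.sum_sub_distrib, Finset.mul_sum]
  congr 1
  rw [← Finset.sum_fiberwise (s := T) (g := G.o)]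
  refine Finset.sum_congr rfl (fun v _ => Finset.sum_congr rfl (fun e he => ?_))
  rw [(Finset.mem_filter.1 he).2]

theorem form_symm [Fintype V] {G : Graph V E} {T : Finset E} (hT : ∀ e ∈ T, G.bar e ∈ T)
    {x : E → ℝ} (hx : Adm G x) (g h : V → ℝ) : form G T x g h = form G T x h g := by
  have e1 : ∀ g h : V → ℝ, ∑ e ∈ T, g (G.o e) * (x e * amp G x h e)
      = ∑ e ∈ T, x e * g (G.o e) * h (G.t e) / (1 - x e ^ 2)
        - ∑ e ∈ T, x e ^ 2 * (g (G.o e) * h (G.o e)) / (1 - x e ^ 2) := by
    intro g h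
    rw [← Finset.sum_sub_distrib]
    refine Finset.sum_congr rfl (fun e _ => ?_)
    simp only [amp]
    ring
  simp only [form, e1]
  congr 1
  · exact Finset.sum_congr rfl (fun v _ => mul_comm _ _)
  · congr 1
    · rw [← G.sum_bar hT]
      refine Finset.sum_congr rfl (fun e _ => ?_)
      simp only [G.t_bar, G.o_bar, (hx e).2.2]
      ring
    · exact Finset.sum_congr rfl (fun e _ => by ring)

theorem amp_lin (G : Graph V E) (x : E → ℝ) (f g : V → ℝ) (a b : ℝ) (e : E) :
    amp G x (fun v => a * f v + b * g v) e = a * amp G x f e + b * amp G x g e := by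
  simp only [amp]
  ring

theorem lap_lin (G : Graph V E) (T : Finset E) (x : E → ℝ) (f g : V → ℝ) (a b : ℝ) (v : V) :
    lap G T x (fun v => a * f v + b * g v) v = a * lap G T x f v + b * lap G T x g v := by
  simp only [lap, amp_lin, mul_sub, Finset.mul_sum, mul_add, Finset.sum_add_distrib]
  have e1 : ∀ e, x e * (a * amp G x f e) = a * (x e * amp G x f e) := fun e => by ring
  have e2 : ∀ e, x e * (b * amp G x g e) = b * (x e * amp G x g e) := fun e => by ring
  simp only [e1, e2]
  ring

theorem form_lin_right [Fintype V] (G : Graph V E) (T : Finset E) (x : E → ℝ) (h f g : V → ℝ)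
    (a b : ℝ) :
    form G T x h (fun v => a * f v + b * g v) = a * form G T x h f + b * form G T x h g := by
  simp only [form_eq, lap_lin, Finset.mul_sum, ← Finset.sum_add_distrib]
  exact Finset.sum_congr rfl (fun v _ => by ring)

theorem form_lin_left [Fintype V] (G : Graph V E) (T : Finset E) (x : E → ℝ) (h f g : V → ℝ)
    (a b : ℝ) :
    form G T x (fun v => a * f v + b * g v) h = a * form G T x f h + b * form G T x g h := by
  simp only [form_eq, Finset.mul_sum, ← Finset.sum_add_distrib]
  exact Finset.sum_congr rfl (fun v _ => by ring)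

theorem form_smul [Fintype V] (G : Graph V E) (T : Finset E) (x : E → ℝ) (f : V → ℝ) (a : ℝ) :
    form G T x (a • f) (a • f) = a ^ 2 * form G T x f f := by
  have : a • f = fun v => a * f v + 0 * f v := by
    ext v; simp
  rw [this, form_lin_left, form_lin_right]
  ring

theorem form_abs_le [Fintype V] {G : Graph V E} (T : Finset E) {x : E → ℝ} (hx : Adm G x)
    (g : V → ℝ) : form G T x (fun v => |g v|) (fun v => |g v|) ≤ form G T x g g := by
  simp only [form, abs_mul_abs_self]
  have : ∑ e ∈ T, g (G.o e) * (x e * amp G x g e)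
      ≤ ∑ e ∈ T, |g (G.o e)| * (x e * amp G x (fun v => |g v|) e) := by
    refine Finset.sum_le_sum (fun e _ => ?_)
    have h1 := hx.den e
    have h2 := (hx e).1
    simp only [amp]
    rw [← mul_div_assoc, ← mul_div_assoc, ← mul_div_assoc, ← mul_div_assoc]
    apply div_le_div_of_nonneg_right _ h1.le
    have h3 : g (G.o e) * g (G.t e) ≤ |g (G.o e)| * |g (G.t e)| := by
      rw [← abs_mul]; exact le_abs_self _
    have h4 := abs_mul_abs_self (g (G.o e))
    have h5 := mul_le_mul_of_nonneg_left h3 h2.le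
    have h6 : |g (G.o e)| * (x e * (|g (G.t e)| - x e * |g (G.o e)|))
      = x e * (|g (G.o e)| * |g (G.t e)|) - x e ^ 2 * (|g (G.o e)| * |g (G.o e)|) := by ring
    rw [h6, h4]
    nlinarith
  linarith

theorem exists_kernel [Fintype V] {G : Graph V E} {T : Finset E} (hT : ∀ e ∈ T, G.bar e ∈ T)
    {x : E → ℝ} (hx : Adm G x) (hpsd : ∀ g, 0 ≤ form G T x g g) {g : V → ℝ} (hg0 : g ≠ 0)
    (hg : form G T x g g ≤ 0) :
    ∃ f : V → ℝ, (∀ v, 0 ≤ f v) ∧ (∃ v, 0 < f v) ∧ ∀ v, lap G T x f v = 0 := by
  set f : V → ℝ := fun v => |g v| with hf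
  have h0 : form G T x f f = 0 := le_antisymm ((form_abs_le T hx g).trans hg) (hpsd f)
  refine ⟨f, fun v => abs_nonneg _, ?_, fun v => ?_⟩
  · obtain ⟨v, hv⟩ := Function.ne_iff.1 hg0
    exact ⟨v, abs_pos.2 hv⟩
  · set d : V → ℝ := fun w => if w = v then 1 else 0 with hd
    have h1 : form G T x d f = lap G T x f v := by
      rw [form_eq]
      simp [hd]
    have h2 : ∀ a : ℝ, 0 ≤ form G T x d d * (a * a) + (2 * form G T x d f) * a + 0 := by
      intro a
      have := hpsd (fun w => 1 * f w + a * d w)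
      rw [form_lin_left, form_lin_right, form_lin_right, h0, form_symm hT hx f d] at this
      linarith
    have h3 := discrim_le_zero h2
    rw [discrim] at h3
    rw [← h1]
    nlinarith

theorem exists_super [Fintype V] {G : Graph V E} {T : Finset E}
    {x : E → ℝ} (hx : Adm G x) (hpd : ∀ g, g ≠ 0 → 0 < form G T x g g) :
    ∃ f : V → ℝ, (∀ v, 0 ≤ f v) ∧ ∀ v, lap G T x f v = 1 := by
  let A : (V → ℝ) →ₗ[ℝ] (V → ℝ) :=
    { toFun := lap G T x
      map_add' := fun f g => by
        ext v
        have := lap_lin G T x f g 1 1 v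
        simp only [one_mul] at this
        exact this
      map_smul' := fun a f => by
        ext v
        have := lap_lin G T x f f a 0 v
        simp only [zero_mul, add_zero] at this
        exact this }
  have hinj : Function.Injective A := by
    rw [← LinearMap.ker_eq_bot, LinearMap.ker_eq_bot']
    intro f hf
    by_contra hne
    have h1 := hpd f hne
    rw [form_eq] at h1
    have h2 : ∀ v, lap G T x f v = 0 := fun v => congrFun hf v
    simp [h2] at h1
  obtain ⟨f, hf⟩ := (LinearMap.injective_iff_surjective.1 hinj) (fun _ => 1)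
  have hf' : ∀ v, lap G T x f v = 1 := fun v => congrFun hf v
  refine ⟨f, ?_, hf'⟩
  set p : V → ℝ := fun v => max (f v) 0 with hp
  set n : V → ℝ := fun v => max (-f v) 0 with hn
  have hpn : f = fun v => 1 * p v + (-1) * n v := by
    ext v
    simp only [hp, hn]
    rcases le_total (f v) 0 with h | h
    · rw [max_eq_right h, max_eq_left (by linarith)]; ring
    · rw [max_eq_left h, max_eq_right (by linarith)]; ring
  have hz : ∀ v, n v * p v = 0 := by
    intro v
    simp only [hp, hn]
    rcases le_total (f v) 0 with h | h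
    · rw [max_eq_right h, mul_zero]
    · rw [max_eq_right (show -f v ≤ 0 by linarith), zero_mul]
  have hn0 : ∀ v, 0 ≤ n v := fun v => le_max_right _ _
  have hp0 : ∀ v, 0 ≤ p v := fun v => le_max_right _ _
  have h1 : 0 ≤ form G T x n f := by
    rw [form_eq]
    exact Finset.sum_nonneg (fun v _ => by rw [hf' v, mul_one]; exact hn0 v)
  have h2 : form G T x n p ≤ 0 := by
    simp only [form, hz, Finset.sum_const_zero, zero_sub, neg_nonpos]
    refine Finset.sum_nonneg (fun e _ => ?_)
    have h3 := hx.den e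
    have h4 := (hx e).1
    have : n (G.o e) * (x e * amp G x p e) = x e * (n (G.o e) * p (G.t e)) / (1 - x e ^ 2)
        - x e ^ 2 * (n (G.o e) * p (G.o e)) / (1 - x e ^ 2) := by
      simp only [amp]; ring
    rw [this, hz]
    have h5 := hn0 (G.o e)
    have h6 := hp0 (G.t e)
    simp only [mul_zero, zero_div, sub_zero]
    positivity
  rw [hpn, form_lin_right] at h1
  have h3 : n = 0 := by
    by_contra hne
    have := hpd n hne
    linarith
  intro v
  have h4 : max (-f v) 0 = 0 := congrFun h3 v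
  have := le_max_left (-f v) 0
  linarith

theorem amp_eq {G : Graph V E} {T : Finset E} (hT : ∀ e ∈ T, G.bar e ∈ T)
    {x : E → ℝ} (hx : Adm G x) (f : V → ℝ) {e : E} (he : e ∈ T) :
    amp G x f e = lap G T x f (G.t e)
      + ∑ e' ∈ T.filter (fun e' => G.Next e e'), x e' * amp G x f e' := by
  have h1 : T.filter (fun e' => G.o e' = G.t e)
      = insert (G.bar e) (T.filter (fun e' => G.Next e e')) := by
    ext e'
    simp only [Finset.mem_filter, Finset.mem_insert, Graph.Next]
    constructor
    · rintro ⟨h1, h2⟩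
      by_cases h : e' = G.bar e
      · exact Or.inl h
      · exact Or.inr ⟨h1, h2.symm, h⟩
    · rintro (rfl | ⟨h1, h2, -⟩)
      · exact ⟨hT e he, rfl⟩
      · exact ⟨h1, h2.symm⟩
  have h2 : G.bar e ∉ T.filter (fun e' => G.Next e e') := by
    simp [Graph.Next]
  rw [lap, h1, Finset.sum_insert h2, (hx e).2.2, ← amp_add_bar hx f e]
  ring

theorem amp_nonneg {G : Graph V E} {T : Finset E} (hT : ∀ e ∈ T, G.bar e ∈ T)
    {x : E → ℝ} (hx : Adm G x) {f : V → ℝ} (hf : ∀ v, 0 ≤ f v) (hl : ∀ v, 0 ≤ lap G T x f v) :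
    ∀ e ∈ T, 0 ≤ amp G x f e := by
  by_contra hcon
  push Not at hcon
  obtain ⟨e, he, hmin⟩ := Finset.exists_min_image (T.filter (fun e => amp G x f e < 0))
    (fun e => f (G.t e)) (by
      obtain ⟨e, h1, h2⟩ := hcon
      exact ⟨e, Finset.mem_filter.2 ⟨h1, h2⟩⟩)
  obtain ⟨he1, he2⟩ := Finset.mem_filter.1 he
  rw [amp_eq hT hx f he1] at he2
  have h1 : ∑ e' ∈ T.filter (fun e' => G.Next e e'), x e' * amp G x f e' < 0 := by
    have := hl (G.t e)
    linarith
  obtain ⟨e', he', h2⟩ : ∃ e' ∈ T.filter (fun e' => G.Next e e'), x e' * amp G x f e' < 0 := by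
    by_contra hc
    push Not at hc
    have := Finset.sum_nonneg hc
    linarith
  obtain ⟨h3, h4⟩ := Finset.mem_filter.1 he'
  have h5 : amp G x f e' < 0 := by
    by_contra hc
    have := mul_nonneg (hx e').1.le (not_lt.1 hc)
    linarith
  have h6 := hmin e' (Finset.mem_filter.2 ⟨h3, h5⟩)
  rw [amp, div_neg_iff] at h5
  have h7 := hx.den e'
  have h8 : f (G.t e') - x e' * f (G.o e') < 0 := by
    rcases h5 with h | h
    · linarith [h.2]
    · exact h.1
  have h9 := hf (G.o e')
  have h10 := (hx e').2.1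
  rw [h4.1] at h6
  nlinarith

end Pool.Agent.Lib.MP_0a131d_gt
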