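import Pool.Agent.Lib.MP_0a131d_gt.Upper

/-!
The complete graph on four vertices with all lengths `log 2`.
-/

namespace Pool.Agent.Lib.MP_0a131d_gt

open Real

/-- The complete graph on four vertices. -/
def kFour : Graph (Fin 4) {p : Fin 4 × Fin 4 // p.1 ≠ p.2} where
  o := fun e => e.1.1
  bar := fun e => ⟨(e.1.2, e.1.1), e.2.symm⟩
  bar_bar := fun _ => rfl
  bar_ne := fun e h => e.2 (congrArg (fun x => x.1.2) h)

theorem kFour_reg : ∀ v : Fin 4, (Finset.univ.filter fun e => kFour.o e = v).card = 2 + 1 := by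
  decide

theorem kFour_sum (g : Fin 4 → ℝ) :
    ∑ e, (g (kFour.o e) - g (kFour.t e)) ^ 2 = 8 * ∑ v, g v ^ 2 - 2 * (∑ v, g v) ^ 2 := by
  have h : ∑ e, (g (kFour.o e) - g (kFour.t e)) ^ 2
      = ∑ p ∈ Finset.univ.filter (fun p : Fin 4 × Fin 4 => p.1 ≠ p.2), (g p.1 - g p.2) ^ 2 :=
    (Finset.sum_subtype (p := fun p : Fin 4 × Fin 4 => p.1 ≠ p.2) _ (by simp)
      (fun p => (g p.1 - g p.2) ^ 2)).symm
  have h' : ∑ p ∈ Finset.univ.filter (fun p : Fin 4 × Fin 4 => p.1 ≠ p.2), (g p.1 - g p.2) ^ 2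
      = ∑ p : Fin 4 × Fin 4, (g p.1 - g p.2) ^ 2 :=
    Finset.sum_filter_of_ne (fun p _ h1 h2 => h1 (by rw [h2]; ring))
  rw [h, h', Fintype.sum_prod_type]
  simp only [Fin.sum_univ_four]
  ring

theorem kFour_key {u : ℝ} (hu0 : 0 < u) (hu : u ^ 2 + 2 * u ^ 3 < 1) {p q a b : ℝ}
    (h : ¬ (p = 0 ∧ q = 0 ∧ a = 0 ∧ b = 0)) :
    0 < (1 + u ^ 2) * (p ^ 2 + q ^ 2) + (1 + 2 * u ^ 2) * (a ^ 2 + b ^ 2)
      - 2 * u * (a * b + (p + q) * (a + b)) := by
  have hu1 : u < 1 := by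
    by_contra hc
    push Not at hc
    nlinarith [one_le_pow₀ (n := 2) hc, pow_pos hu0 3]
  have hdet : 0 < (1 - u) * (1 - u ^ 2 - 2 * u ^ 3) := mul_pos (by linarith) (by linarith)
  have hA : 0 < 1 + u ^ 2 := by positivity
  have hB : 0 < 1 + u + 2 * u ^ 2 := by positivity
  have key : 2 * (1 + u ^ 2) * ((1 + u ^ 2) * (p ^ 2 + q ^ 2) + (1 + 2 * u ^ 2) * (a ^ 2 + b ^ 2)
      - 2 * u * (a * b + (p + q) * (a + b)))
      = (1 + u ^ 2) ^ 2 * (p - q) ^ 2 + (1 + u ^ 2) * (1 + u + 2 * u ^ 2) * (a - b) ^ 2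
        + ((1 + u ^ 2) * (p + q) - 2 * u * (a + b)) ^ 2
        + (1 - u) * (1 - u ^ 2 - 2 * u ^ 3) * (a + b) ^ 2 := by ring
  by_contra hc
  push Not at hc
  have h0 := mul_nonpos_of_nonneg_of_nonpos (show 0 ≤ 2 * (1 + u ^ 2) by positivity) hc
  rw [key] at h0
  have t1 : 0 ≤ (1 + u ^ 2) ^ 2 * (p - q) ^ 2 := by positivity
  have t2 : 0 ≤ (1 + u ^ 2) * (1 + u + 2 * u ^ 2) * (a - b) ^ 2 := by positivity
  have t3 : 0 ≤ ((1 + u ^ 2) * (p + q) - 2 * u * (a + b)) ^ 2 := sq_nonneg _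
  have t4 : 0 ≤ (1 - u) * (1 - u ^ 2 - 2 * u ^ 3) * (a + b) ^ 2 := by positivity
  have e1 : p - q = 0 := by
    have : (1 + u ^ 2) ^ 2 * (p - q) ^ 2 = 0 := by linarith
    simpa [hA.ne'] using this
  have e2 : a - b = 0 := by
    have : (1 + u ^ 2) * (1 + u + 2 * u ^ 2) * (a - b) ^ 2 = 0 := by linarith
    simpa [hA.ne', hB.ne'] using this
  have e4 : a + b = 0 := by
    have : (1 - u) * (1 - u ^ 2 - 2 * u ^ 3) * (a + b) ^ 2 = 0 := by linarith
    exact pow_eq_zero_iff two_ne_zero |>.1 ((mul_eq_zero.1 this).resolve_left hdet.ne')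
  have e3 : p + q = 0 := by
    have : ((1 + u ^ 2) * (p + q) - 2 * u * (a + b)) ^ 2 = 0 := by linarith
    rw [e4] at this
    simpa [hA.ne'] using this
  exact h ⟨by linarith, by linarith, by linarith, by linarith⟩

theorem kFour_pos {u : ℝ} (hu0 : 0 < u) (hu : u ^ 2 + 2 * u ^ 3 < 1) (g : Fin 4 → ℝ) (hg : g ≠ 0)
    (p q : Fin 4) (hpq : p ≠ q) :
    0 < (1 - u) * (1 - (2 : ℕ) * u) * ∑ v, g v ^ 2
        + u / 2 * (8 * ∑ v, g v ^ 2 - 2 * (∑ v, g v) ^ 2)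
        + 2 * u * g p * g q - u ^ 2 * (g p ^ 2 + g q ^ 2) := by
  have hz : ¬ (g 0 = 0 ∧ g 1 = 0 ∧ g 2 = 0 ∧ g 3 = 0) := fun h => hg (funext fun v => by
    fin_cases v
    exacts [h.1, h.2.1, h.2.2.1, h.2.2.2])
  have k01 := kFour_key hu0 hu (p := g 0) (q := g 1) (a := g 2) (b := g 3) (by tauto)
  have k02 := kFour_key hu0 hu (p := g 0) (q := g 2) (a := g 1) (b := g 3) (by tauto)
  have k03 := kFour_key hu0 hu (p := g 0) (q := g 3) (a := g 1) (b := g 2) (by tauto)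
  have k12 := kFour_key hu0 hu (p := g 1) (q := g 2) (a := g 0) (b := g 3) (by tauto)
  have k13 := kFour_key hu0 hu (p := g 1) (q := g 3) (a := g 0) (b := g 2) (by tauto)
  have k23 := kFour_key hu0 hu (p := g 2) (q := g 3) (a := g 0) (b := g 1) (by tauto)
  simp only [Fin.sum_univ_four]
  push_cast
  fin_cases p <;> fin_cases q <;>
    simp only [Fin.zero_eta, Fin.mk_one, Fin.reduceFinMk, Fin.isValue] at hpq ⊢ <;>
    first | exact absurd rfl hpq | linarith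

theorem exists_lam : ∃ lam : ℝ, lam ^ 3 = lam + 2 ∧ 3 / 2 < lam ∧ lam < 153 / 100 := by
  have hc : ContinuousOn (fun x : ℝ => x ^ 3 - x - 2) (Set.Icc (3 / 2) (153 / 100)) := by
    fun_prop
  obtain ⟨x, hx, h⟩ := intermediate_value_Ioo (by norm_num : (3 / 2 : ℝ) ≤ 153 / 100) hc
    (show (0 : ℝ) ∈ Set.Ioo _ _ by constructor <;> norm_num)
  exact ⟨x, by linarith, hx.1, hx.2⟩

theorem C_three_le {lam : ℝ} (h : lam ^ 3 = lam + 2) (h1 : 1 < lam) :
    C 3 ≤ Real.log lam / Real.log 2 := by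
  have hL : 0 < Real.log 2 := Real.log_pos one_lt_two
  have hreg : ∀ v : Fin 4, (@Finset.filter _ (fun e => kFour.o e = v)
      (fun _ => Classical.propDecidable _) Finset.univ).card = 2 + 1 := fun v => by
    convert kFour_reg v
  have hent := reg_entropy (G := kFour) (d := 2) le_rfl hreg
  have hc : kFour.Connected := by
    refine ⟨⟨0⟩, fun u v => ?_⟩
    by_cases huv : u = v
    · exact huv ▸ Relation.ReflTransGen.refl
    · exact Relation.ReflTransGen.single ⟨⟨(u, v), huv⟩, rfl, rfl⟩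
  have hrk : kFour.rank = ((3 : ℕ) : ℤ) := by decide
  refine C_le le_rfl hc hrk (l := fun _ => Real.log (2 : ℕ))
    (fun _ => ⟨by simpa using hL, rfl⟩) hent (by decide)
    (div_nonneg (Real.log_pos h1).le hL.le) fun e0 s hs _ g hg => ?_
  have hw : wt (fun _ : {p : Fin 4 × Fin 4 // p.1 ≠ p.2} => Real.log (2 : ℕ)) s
      = fun _ => exp (-(s * Real.log (2 : ℕ))) := rfl
  rw [hw]
  set u := exp (-(s * Real.log (2 : ℕ))) with hu
  have hu0 : 0 < u := exp_pos _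
  have hu1 : lam * u < 1 := by
    rw [div_lt_iff₀ hL] at hs
    rw [hu, ← exp_log (show 0 < lam by linarith), ← exp_add, exp_lt_one_iff]
    push_cast
    linarith
  have hu2 : u ^ 2 + 2 * u ^ 3 < 1 := by
    have h2 : (lam * u) ^ 3 < 1 := pow_lt_one₀ (by positivity) hu1 three_ne_zero
    have h3 : (lam * u) ^ 2 < 1 := pow_lt_one₀ (by positivity) hu1 two_ne_zero
    have h4 : 0 < lam ^ 3 := by positivity
    have h5 : lam ^ 3 * (u ^ 2 + 2 * u ^ 3) < lam ^ 3 * 1 := by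
      have : lam ^ 3 * (u ^ 2 + 2 * u ^ 3) = lam * (lam * u) ^ 2 + 2 * (lam * u) ^ 3 := by ring
      rw [this, mul_one, h]
      nlinarith
    exact lt_of_mul_lt_mul_left h5 h4.le
  have h3 : 0 < 1 - u ^ 2 := by nlinarith [pow_pos hu0 3]
  have h4 := form_del hreg h3.ne' g e0
  rw [kFour_sum] at h4
  have h5 := kFour_pos hu0 hu2 g hg (kFour.o e0) (kFour.t e0) e0.2
  rw [← h4] at h5
  exact (mul_pos_iff_of_pos_left h3).1 h5

theorem not_theta : ∃ lam : ℝ, lam ^ 3 = lam + 2 ∧ C 3 ≤ Real.log lam / Real.log 2 ∧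
    Real.log lam / Real.log 2 < Real.log 2 / Real.log 3 := by
  obtain ⟨lam, h, h1, h2⟩ := exists_lam
  have hL : 0 < Real.log 2 := Real.log_pos one_lt_two
  have hL3 : 0 < Real.log 3 := Real.log_pos (by norm_num)
  refine ⟨lam, h, C_three_le h (by linarith), lt_trans (b := 5 / 8) ?_ ?_⟩
  · rw [div_lt_div_iff₀ hL (by norm_num)]
    have h3 : lam ^ 8 < 2 ^ 5 :=
      (pow_lt_pow_left₀ h2 (by linarith) (by norm_num)).trans (by norm_num)
    have h4 := Real.log_lt_log (by positivity) h3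
    rw [Real.log_pow, Real.log_pow] at h4
    push_cast at h4
    linarith
  · rw [div_lt_div_iff₀ (by norm_num) hL3]
    have h4 := Real.log_lt_log (by positivity) (show (3 : ℝ) ^ 5 < 2 ^ 8 by norm_num)
    rw [Real.log_pow, Real.log_pow] at h4
    push_cast at h4
    linarith

end Pool.Agent.Lib.MP_0a131d_gt
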