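import Pool.Agent.Lib.MP_0a131d_gt.Entropy
import Pool.Agent.Lib.MP_0a131d_gt.Edge

/-!
Deleting a well chosen edge lowers the entropy by a factor at most `(r - 2) / (r - 1)`.
-/

namespace Pool.Agent.Lib.MP_0a131d_gt

open Real Filter Topology

open scoped Classical

variable {V E : Type} [Fintype V] [Fintype E]

omit [Fintype V] [Fintype E] in
theorem pos_of_connected {G : Graph V E} (hc : G.Connected) {x : E → ℝ} (hx : Adm G x)
    {f : V → ℝ} (hf0 : ∀ v, 0 ≤ f v) (hf1 : ∃ v, 0 < f v)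
    (ha : ∀ e, 0 ≤ amp G x f e) : ∀ v, 0 < f v := by
  obtain ⟨u, hu⟩ := hf1
  intro v
  induction hc.2 u v with
  | refl => exact hu
  | tail _ h ih =>
    obtain ⟨e, rfl, rfl⟩ := h
    by_contra hcon
    have h0 : f (G.t e) = 0 := le_antisymm (not_lt.1 hcon) (hf0 _)
    have h1 := amp_add_bar hx f e
    have h2 := amp_add_bar hx f (G.bar e)
    rw [G.bar_bar, G.t_bar] at h2
    have h3 := ha e
    have h4 := ha (G.bar e)
    have h5 := (hx e).1
    have h6 := mul_nonneg h5.le h4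
    have h7 : amp G x f e = 0 := by linarith
    have h8 : x e * amp G x f (G.bar e) = 0 := by linarith
    have h9 : amp G x f (G.bar e) = 0 := by
      rcases mul_eq_zero.1 h8 with h | h
      · linarith
      · exact h
    rw [h7, h9] at h2
    linarith

theorem exists_good_edge {G : Graph V E} (hc : G.Connected) {r : ℕ} (hr : 3 ≤ r)
    (hrk : G.rank = (r : ℤ)) {l : E → ℝ} (hl : G.IsLength l) (hent : G.HasEntropy Set.univ l 1) :
    ∃ e0 : E, ∃ h : ℝ,
      G.HasEntropy (((Finset.univ.erase e0).erase (G.bar e0) : Finset E) : Set E) l h ∧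
      ((r : ℝ) - 2) / ((r : ℝ) - 1) ≤ h := by
  have hTu : ∀ e ∈ (Finset.univ : Finset E), G.bar e ∈ (Finset.univ : Finset E) :=
    fun e _ => Finset.mem_univ _
  obtain ⟨h, hh1, -, hh2⟩ := entropy_spec hTu hl
  rw [Finset.coe_univ] at hh1
  have hh : h = 1 := tendsto_nhds_unique hh1 hent
  subst hh
  obtain ⟨g0, hg0, hg1⟩ := (hh2 1 one_pos).1 le_rfl
  have hx := adm_wt hl one_pos
  obtain ⟨f, hf0, hf1, hf⟩ := exists_kernel hTu hx
    (psd_of_posdef_above _ hl one_pos (fun s' hs' g hg => by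
      by_contra hcon
      have := (hh2 s' (by linarith)).2 ⟨g, hg, not_lt.1 hcon⟩
      linarith)) hg0 hg1
  set x := wt l 1 with hxdef
  have ha : ∀ e, 0 ≤ amp G x f e := fun e =>
    amp_nonneg hTu hx hf0 (fun v => (hf v).ge) e (Finset.mem_univ e)
  have hfp := pos_of_connected hc hx hf0 hf1 ha
  -- counting
  have hcard : 2 * ((r : ℝ) - 1 + Fintype.card V) ≤ Fintype.card E := by
    have h1 : 2 * ((r : ℤ) - 1 + Fintype.card V) ≤ Fintype.card E := by
      rw [Graph.rank] at hrk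
      omega
    exact_mod_cast h1
  have hr' : (3 : ℝ) ≤ r := by exact_mod_cast hr
  have hE : Nonempty E := by
    rw [← Fintype.card_pos_iff]
    have : (0 : ℝ) < Fintype.card E := by
      have : (0 : ℝ) ≤ Fintype.card V := Nat.cast_nonneg _
      linarith
    exact_mod_cast this
  have hao : ∀ e, f (G.o e) = amp G x f (G.bar e) + amp G x f e * x e := by
    intro e
    have h2 := amp_add_bar hx f (G.bar e)
    rw [G.bar_bar, G.t_bar, (hx e).2.2] at h2
    linarith
  have hat : ∀ e, f (G.t e) = amp G x f e + amp G x f (G.bar e) * x e := by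
    intro e
    have h2 := amp_add_bar hx f e
    linarith
  have hab : ∀ e, 0 < amp G x f (G.bar e) + amp G x f e := by
    intro e
    have h1 := hao e
    have h2 := hfp (G.o e)
    have h3 := ha e
    have h4 := (hx e).2.1
    nlinarith
  set τ : E → ℝ := fun e => x e * amp G x f e * f (G.o e) + x e * amp G x f (G.bar e) * f (G.t e)
    with hτ
  obtain ⟨e0, he0⟩ := Finite.exists_min τ
  set ν := τ e0 with hν
  have hν0 : 0 < ν := by
    have h1 := hab e0
    have h2 := hfp (G.o e0)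
    have h3 := hfp (G.t e0)
    have h4 := (hx e0).1
    have h5 := ha e0
    have h6 := ha (G.bar e0)
    simp only [hν, hτ]
    rcases h5.lt_or_eq with h | h
    · positivity
    · have : 0 < amp G x f (G.bar e0) := by linarith
      positivity
  set s : ℝ := ((r : ℝ) - 2) / ((r : ℝ) - 1) with hs
  have hs0 : 0 < s := div_pos (by linarith) (by linarith)
  have hs1 : s ≤ 1 := (div_le_one (by linarith)).2 (by linarith)
  have hs2 : s = (1 - s) * ((r : ℝ) - 2) := by
    have : (r : ℝ) - 1 ≠ 0 := by linarith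
    rw [hs]
    field_simp
    ring
  set T : Finset E := (Finset.univ.erase e0).erase (G.bar e0) with hT
  have hTm : ∀ e, e ∈ T ↔ e ≠ G.bar e0 ∧ e ≠ e0 := by
    intro e
    simp [hT]
  have hTb : ∀ e ∈ T, G.bar e ∈ T := by
    intro e he
    rw [hTm] at he ⊢
    refine ⟨fun h => he.2 (G.bar_inj h), fun h => he.1 ?_⟩
    rw [← h, G.bar_bar]
  have hsumT : ∀ F : E → ℝ, ∑ e ∈ T, F e = ∑ e, F e - F e0 - F (G.bar e0) := by
    intro F
    have h1 : G.bar e0 ∈ Finset.univ.erase e0 := by simp [G.bar_ne]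
    have h2 := Finset.sum_erase_eq_sub (f := F) h1
    have h3 := Finset.sum_erase_eq_sub (f := F) (Finset.mem_univ e0)
    rw [h2, h3]
  obtain ⟨h, hh3, -, hh4⟩ := entropy_spec hTb hl
  refine ⟨e0, h, hh3, (hh4 s hs0).2 ⟨fun v => f v ^ s, ?_, ?_⟩⟩
  · obtain ⟨v⟩ := hc.1
    intro h
    have h1 : f v ^ s = 0 := congrFun h v
    have h2 := Real.rpow_pos_of_pos (hfp v) s
    linarith
  set g : V → ℝ := fun v => f v ^ s with hg
  set X := wt l s with hX
  have hXa : Adm G X := adm_wt hl hs0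
  set q : E → ℝ := fun e => x e * amp G x f e / f (G.o e) with hq
  have hqsum : ∀ F : V → ℝ, ∑ e, q e * F (G.o e) = ∑ v, F v := by
    intro F
    rw [← Finset.sum_fiberwise (s := Finset.univ) (g := G.o)]
    refine Finset.sum_congr rfl (fun v _ => ?_)
    have h1 := hf v
    rw [lap, sub_eq_zero] at h1
    have h2 : ∑ e ∈ Finset.univ.filter (fun e => G.o e = v), q e * F (G.o e)
        = ∑ e ∈ Finset.univ.filter (fun e => G.o e = v), x e * amp G x f e * (F v / f v) := by
      refine Finset.sum_congr rfl (fun e he => ?_)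
      simp only [hq, (Finset.mem_filter.1 he).2]
      ring
    rw [h2, ← Finset.sum_mul, ← h1]
    have := (hfp v).ne'
    field_simp
  set Φ : E → ℝ := fun e => g (G.o e) * (X e * amp G X g e) with hΦ
  set Ψ : E → ℝ := fun e => q e * g (G.o e) ^ 2 + (1 - s) * ν ^ s * (1 / 2 - q e) with hΨ
  have hedge : ∀ e, Ψ e + Ψ (G.bar e) ≤ Φ e + Φ (G.bar e) := by
    intro e
    have key := edge_ineq (amp G x f (G.bar e)) (amp G x f e) (l e) s ν (ha _) (ha _) (hab e)
      (hl e).1 hs0 hs1 hν0.le (x e) (X e) (f (G.o e)) (f (G.t e)) (by simp [hxdef, wt]) rfl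
      (hao e) (hat e) (he0 e)
    have e1 : Φ e = (X e * f (G.o e) ^ s * f (G.t e) ^ s - X e ^ 2 * (f (G.o e) ^ s) ^ 2)
        / (1 - X e ^ 2) := by
      simp only [hΦ, amp, hg]; ring
    have e2 : Φ (G.bar e) = (X e * f (G.t e) ^ s * f (G.o e) ^ s - X e ^ 2 * (f (G.t e) ^ s) ^ 2)
        / (1 - X e ^ 2) := by
      simp only [hΦ, amp, hg, G.t_bar, G.o_bar, (hXa e).2.2]; ring
    rw [e1, e2]
    refine le_trans (le_of_eq ?_) key
    simp only [hΨ, hq, hg, G.o_bar, (hx e).2.2]
    ring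
  have hsum : ∑ e ∈ T, Ψ e ≤ ∑ e ∈ T, Φ e := by
    have h1 := Finset.sum_le_sum (s := T) (fun e _ => hedge e)
    have h2 : ∑ e ∈ T, (Ψ e + Ψ (G.bar e)) = ∑ e ∈ T, Ψ e + ∑ e ∈ T, Ψ (G.bar e) :=
      Finset.sum_add_distrib
    have h3 : ∑ e ∈ T, (Φ e + Φ (G.bar e)) = ∑ e ∈ T, Φ e + ∑ e ∈ T, Φ (G.bar e) :=
      Finset.sum_add_distrib
    rw [h2, h3, G.sum_bar hTb Ψ, G.sum_bar hTb Φ] at h1
    linarith
  have hΨsum : ∑ e, Ψ e = ∑ v, g v ^ 2
      + (1 - s) * ν ^ s * (Fintype.card E / 2 - Fintype.card V) := by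
    simp only [hΨ, Finset.sum_add_distrib, ← Finset.mul_sum, Finset.sum_sub_distrib]
    rw [hqsum (fun v => g v ^ 2)]
    have := hqsum (fun _ => 1)
    simp only [mul_one, Finset.sum_const, Finset.card_univ, nsmul_eq_mul] at this ⊢
    rw [this]
    ring
  have hbern : ∀ v, g v ^ 2 ≤ ν ^ s * (1 - s + s * (f v ^ 2 / ν)) := by
    intro v
    have h0 := hfp v
    have h1 : g v ^ 2 = ν ^ s * (1 + (f v ^ 2 / ν - 1)) ^ s := by
      rw [add_sub_cancel, ← Real.mul_rpow hν0.le (by positivity), mul_div_cancel₀ _ hν0.ne']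
      simp only [hg]
      rw [← Real.rpow_natCast, ← Real.rpow_mul h0.le, mul_comm s, Real.rpow_mul h0.le,
        Real.rpow_natCast]
    rw [h1]
    apply mul_le_mul_of_nonneg_left _ (Real.rpow_nonneg hν0.le _)
    have h2 : -1 ≤ f v ^ 2 / ν - 1 := by
      have : 0 ≤ f v ^ 2 / ν := by positivity
      linarith
    have := rpow_one_add_le_one_add_mul_self h2 hs0.le hs1
    linarith
  have hq0 : ∀ e, 0 ≤ q e := fun e =>
    div_nonneg (mul_nonneg (hx e).1.le (ha e)) (hfp _).le
  have hqν : q e0 * (f (G.o e0) ^ 2 / ν) + q (G.bar e0) * (f (G.o (G.bar e0)) ^ 2 / ν) = 1 := by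
    have h1 := (hfp (G.o e0)).ne'
    have h2 := (hfp (G.t e0)).ne'
    have h3 := hν0.ne'
    simp only [hq, G.o_bar, (hx e0).2.2]
    field_simp
    simp only [hν, hτ]
    ring
  have hform : form G T X g g = ∑ v, g v ^ 2 - ∑ e ∈ T, Φ e := by
    simp only [form, hΦ, sq]
  rw [hform]
  rw [hsumT Ψ, hΨsum] at hsum
  have hνs : 0 < ν ^ s := Real.rpow_pos_of_pos hν0 s
  have b1 := mul_le_mul_of_nonneg_left (hbern (G.o e0)) (hq0 e0)
  have b2 := mul_le_mul_of_nonneg_left (hbern (G.o (G.bar e0))) (hq0 (G.bar e0))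
  have b3 : Ψ e0 + Ψ (G.bar e0) ≤ ν ^ s * s + (1 - s) * ν ^ s := by
    simp only [hΨ]
    have : ν ^ s * s = ν ^ s * s * (q e0 * (f (G.o e0) ^ 2 / ν)
      + q (G.bar e0) * (f (G.o (G.bar e0)) ^ 2 / ν)) := by rw [hqν, mul_one]
    nlinarith
  have b4 : (1 - s) * ν ^ s * ((r : ℝ) - 1)
      ≤ (1 - s) * ν ^ s * (Fintype.card E / 2 - Fintype.card V) := by
    apply mul_le_mul_of_nonneg_left (by linarith)
    exact mul_nonneg (by linarith) hνs.le
  have b5 : ν ^ s * s = (1 - s) * ν ^ s * ((r : ℝ) - 2) := by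
    conv_lhs => rw [mul_comm]; lhs; rw [hs2]
    ring
  nlinarith

omit [Fintype V] in
theorem entropy_mono {G : Graph V E} {l : E → ℝ} (hl : G.IsLength l) {T : Set E} {h h' : ℝ}
    (h1 : G.HasEntropy T l h) (h2 : G.HasEntropy Set.univ l h') : h ≤ h' := by
  refine le_of_tendsto_of_tendsto h1 h2 ?_
  filter_upwards [eventually_gt_atTop 0] with x hx
  apply div_le_div_of_nonneg_right _ hx.le
  have hfin : (G.circuits Set.univ l x).Finite := by
    rw [← Finset.coe_univ, circuits_eq]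
    exact cycs_finite _ (fun e => (hl e).1) x
  have hle : (G.circuits T l x).ncard ≤ (G.circuits Set.univ l x).ncard :=
    Set.ncard_le_ncard (fun c hc => ⟨hc.1, hc.2.1, fun e _ => Set.mem_univ e, hc.2.2.2⟩) hfin
  rcases Nat.eq_zero_or_pos (G.circuits T l x).ncard with h0 | h0
  · rw [h0]
    simpa using Real.log_natCast_nonneg _
  · exact Real.log_le_log (by exact_mod_cast h0) (by exact_mod_cast hle)

/-- The subgraph obtained by deleting one edge. -/
def delEdge (G : Graph V E) (e0 : E) : G.Subgraph where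
  verts := Set.univ
  edges := (((Finset.univ.erase e0).erase (G.bar e0) : Finset E) : Set E)
  bar_mem := by
    intro e he
    simp only [Finset.coe_erase, Finset.coe_univ, Set.mem_sdiff, Set.mem_univ, Set.mem_singleton_iff,
      true_and] at he ⊢
    refine ⟨fun h => he.2 ?_, fun h => he.1 (G.bar_inj h)⟩
    rw [← h, G.bar_bar]
  o_mem := fun _ _ => Set.mem_univ _

omit [Fintype V] in
theorem delEdge_proper (G : Graph V E) (e0 : E) : (delEdge G e0).Proper := by
  intro h
  have : e0 ∈ (delEdge G e0).edges := by rw [h.2]; exact Set.mem_univ _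
  simp [delEdge] at this

/-- The rose with `r` petals. -/
def rose (r : ℕ) : Graph Unit (Fin r × Bool) where
  o := fun _ => ()
  bar := fun e => (e.1, !e.2)
  bar_bar := fun e => by simp
  bar_ne := fun e h => by simpa using congrArg Prod.snd h

theorem rose_entropy {r : ℕ} (hr : 3 ≤ r) :
    (rose r).HasEntropy Set.univ (fun _ => Real.log (2 * r - 1)) 1 := by
  have hr' : (3 : ℝ) ≤ r := by exact_mod_cast hr
  have hL : 0 < Real.log (2 * r - 1) := Real.log_pos (by linarith)
  have hl : (rose r).IsLength (fun _ => Real.log (2 * r - 1)) := fun _ => ⟨hL, rfl⟩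
  obtain ⟨h, hh1, hh0, hh2⟩ := entropy_spec (G := rose r) (T := Finset.univ)
    (fun e _ => Finset.mem_univ _) hl
  rw [Finset.coe_univ] at hh1
  have key : ∀ s, 0 < s → (s ≤ h ↔ s ≤ 1) := by
    intro s hs
    rw [hh2 s hs]
    set y := exp (-(s * Real.log (2 * r - 1))) with hy
    have hy0 : 0 < y := exp_pos _
    have hy1 : y < 1 := by
      rw [hy, exp_lt_one_iff]
      have := mul_pos hs hL
      linarith
    have hform : ∀ g : Unit → ℝ, form (rose r) Finset.univ (wt (fun _ => Real.log (2 * r - 1)) s) g g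
        = g () ^ 2 * ((1 - (2 * r - 1) * y) / (1 + y)) := by
      intro g
      have h1 : 1 - y ^ 2 ≠ 0 := by nlinarith
      have h2 : 1 + y ≠ 0 := by linarith
      have h3 : 1 - y ≠ 0 := by linarith
      have h4 : ∀ u : Unit, g u = g () := fun _ => rfl
      simp only [form, amp, wt, ← hy, h4, Finset.sum_const, Fintype.card_unit,
        Finset.card_univ, Fintype.card_prod, Fintype.card_fin, Fintype.card_bool, nsmul_eq_mul]
      rw [show 1 - y ^ 2 = (1 - y) * (1 + y) by ring]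
      push_cast
      field_simp
      ring
    have hiff : 1 - (2 * r - 1) * y ≤ 0 ↔ s ≤ 1 := by
      have h1 : (2 * r - 1) * y = exp ((1 - s) * Real.log (2 * r - 1)) := by
        rw [sub_mul 1 s, one_mul, sub_eq_add_neg (Real.log _), exp_add, exp_log (by linarith)]
      rw [h1, sub_nonpos, one_le_exp_iff, mul_nonneg_iff_of_pos_right hL, sub_nonneg]
    rw [← hiff]
    constructor
    · rintro ⟨g, hg, h1⟩
      rw [hform] at h1
      have h2 : 0 < g () ^ 2 := by
        have : g () ≠ 0 := fun h => hg (funext (fun _ => h))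
        positivity
      by_contra hcon
      have : 0 < g () ^ 2 * ((1 - (2 * r - 1) * y) / (1 + y)) :=
        mul_pos h2 (div_pos (not_le.1 hcon) (by linarith))
      linarith
    · intro h1
      refine ⟨fun _ => 1, fun h => by simpa using congrFun h (), ?_⟩
      rw [hform]
      exact mul_nonpos_of_nonneg_of_nonpos (by positivity)
        (div_nonpos_of_nonpos_of_nonneg h1 (by linarith))
  have h1 : 1 ≤ h := (key 1 one_pos).2 le_rfl
  have h2 : h ≤ 1 := (key h (by linarith)).1 le_rfl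
  rwa [le_antisymm h2 h1] at hh1

theorem C_bounds {r : ℕ} (hr : 3 ≤ r) : ((r : ℝ) - 2) / ((r : ℝ) - 1) ≤ C r ∧ C r ≤ 1 := by
  set S := {c : ℝ | ∃ (V E : Type) (_ : Fintype V) (_ : Fintype E) (G : Graph V E) (l : E → ℝ),
    G.Connected ∧ G.rank = (r : ℤ) ∧ G.IsLength l ∧ G.HasEntropy Set.univ l 1 ∧
    IsGreatest {h : ℝ | ∃ H : G.Subgraph, H.Proper ∧ G.HasEntropy H.edges l h} c} with hS
  have hlow : ∀ c ∈ S, ((r : ℝ) - 2) / ((r : ℝ) - 1) ≤ c := by
    rintro c ⟨V, E, _, _, G, l, h1, h2, h3, h4, h5⟩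
    obtain ⟨e0, h, h6, h7⟩ := exists_good_edge h1 hr h2 h3 h4
    exact h7.trans (h5.2 ⟨delEdge G e0, delEdge_proper G e0, h6⟩)
  have hup : ∀ c ∈ S, c ≤ 1 := by
    rintro c ⟨V, E, _, _, G, l, -, -, h3, h4, ⟨H, -, h5⟩, -⟩
    exact entropy_mono h3 h5 h4
  have hne : S.Nonempty := by
    have hr' : (3 : ℝ) ≤ r := by exact_mod_cast hr
    have hL : 0 < Real.log (2 * r - 1) := Real.log_pos (by linarith)
    have hl : (rose r).IsLength (fun _ => Real.log (2 * r - 1)) := fun _ => ⟨hL, rfl⟩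
    have hc : (rose r).Connected := ⟨⟨()⟩, fun _ _ => Relation.ReflTransGen.refl⟩
    have hrk : (rose r).rank = (r : ℤ) := by
      simp [Graph.rank]
    set A := {h : ℝ | ∃ H : (rose r).Subgraph, H.Proper ∧
      (rose r).HasEntropy H.edges (fun _ => Real.log (2 * r - 1)) h} with hA
    have hAfin : A.Finite := by
      refine (Set.finite_range (fun T : Set (Fin r × Bool) => limUnder atTop (fun x : ℝ =>
        Real.log (((rose r).circuits T (fun _ => Real.log (2 * r - 1)) x).ncard : ℝ) / x))).subset ?_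
      rintro h ⟨H, -, hH⟩
      exact ⟨H.edges, Tendsto.limUnder_eq hH⟩
    have hAne : A.Nonempty := by
      obtain ⟨e0, h, h6, -⟩ := exists_good_edge hc hr hrk hl (rose_entropy hr)
      exact ⟨h, delEdge _ e0, delEdge_proper _ e0, h6⟩
    obtain ⟨c, hc1, hc2⟩ := Set.exists_max_image A id hAfin hAne
    exact ⟨c, Unit, Fin r × Bool, inferInstance, inferInstance, rose r, _, hc, hrk, hl,
      rose_entropy hr, hc1, hc2⟩
  obtain ⟨c, hc⟩ := hne
  exact ⟨le_csInf ⟨c, hc⟩ hlow, (csInf_le ⟨_, hlow⟩ hc).trans (hup c hc)⟩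

theorem C_tendsto : Tendsto C atTop (𝓝 1) := by
  have t1 : Tendsto (fun r : ℕ => 1 - 1 / ((r : ℝ) - 1)) atTop (𝓝 1) := by
    have : Tendsto (fun r : ℕ => 1 / ((r : ℝ) - 1)) atTop (𝓝 0) :=
      tendsto_const_nhds.div_atTop
        (tendsto_atTop_add_const_right _ (-1) tendsto_natCast_atTop_atTop)
    simpa using tendsto_const_nhds.sub this
  refine tendsto_of_tendsto_of_tendsto_of_le_of_le' t1 tendsto_const_nhds ?_ ?_
  · filter_upwards [eventually_ge_atTop 3] with r hr
    have hr' : (3 : ℝ) ≤ r := by exact_mod_cast hr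
    refine le_trans (le_of_eq ?_) (C_bounds hr).1
    have : (r : ℝ) - 1 ≠ 0 := by linarith
    field_simp
    ring
  · filter_upwards [eventually_ge_atTop 3] with r hr
    exact (C_bounds hr).2

end Pool.Agent.Lib.MP_0a131d_gt
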