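import Pool.Agent.Lib.MP_0a131d_gt.Main

/-!
Upper bounds for `C r` from regular graphs with equal edge lengths.
-/

namespace Pool.Agent.Lib.MP_0a131d_gt

open Real Filter Topology

open scoped Classical

variable {V E : Type} [Fintype V] [Fintype E]

omit [Fintype V] in
theorem entropy_mono' {G : Graph V E} {l : E → ℝ} (hl : G.IsLength l) {T T' : Set E} {h h' : ℝ}
    (hT : T ⊆ T') (h1 : G.HasEntropy T l h) (h2 : G.HasEntropy T' l h') : h ≤ h' := by
  refine le_of_tendsto_of_tendsto h1 h2 ?_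
  filter_upwards [eventually_gt_atTop 0] with x hx
  apply div_le_div_of_nonneg_right _ hx.le
  have hfin : (G.circuits Set.univ l x).Finite := by
    rw [← Finset.coe_univ, circuits_eq]
    exact cycs_finite _ (fun e => (hl e).1) x
  have hfin' : (G.circuits T' l x).Finite :=
    hfin.subset fun c hc => ⟨hc.1, hc.2.1, fun e _ => Set.mem_univ e, hc.2.2.2⟩
  have hle : (G.circuits T l x).ncard ≤ (G.circuits T' l x).ncard :=
    Set.ncard_le_ncard (fun c hc => ⟨hc.1, hc.2.1, fun e he => hT (hc.2.2.1 e he), hc.2.2.2⟩) hfin'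
  rcases Nat.eq_zero_or_pos (G.circuits T l x).ncard with h0 | h0
  · rw [h0]
    simpa using Real.log_natCast_nonneg _
  · exact Real.log_le_log (by exact_mod_cast h0) (by exact_mod_cast hle)

/-- An upper bound for `C r` from one graph whose edge-deleted subgraphs have a positive form. -/
theorem C_le {r : ℕ} (hr : 3 ≤ r) {G : Graph V E} (hc : G.Connected) (hrk : G.rank = (r : ℤ))
    {l : E → ℝ} (hl : G.IsLength l) (hent : G.HasEntropy Set.univ l 1)
    (hv : ∀ v, ∃ e, G.o e = v) {b : ℝ} (hb : 0 ≤ b)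
    (hpd : ∀ (e0 : E) (s : ℝ), b < s → s ≤ 1 → ∀ g : V → ℝ, g ≠ 0 →
      0 < form G ((Finset.univ.erase e0).erase (G.bar e0)) (wt l s) g g) : C r ≤ b := by
  set S := {c : ℝ | ∃ (V E : Type) (_ : Fintype V) (_ : Fintype E) (G : Graph V E) (l : E → ℝ),
    G.Connected ∧ G.rank = (r : ℤ) ∧ G.IsLength l ∧ G.HasEntropy Set.univ l 1 ∧
    IsGreatest {h : ℝ | ∃ H : G.Subgraph, H.Proper ∧ G.HasEntropy H.edges l h} c} with hS
  have hlow : ∀ c ∈ S, ((r : ℝ) - 2) / ((r : ℝ) - 1) ≤ c := by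
    rintro c ⟨V, E, _, _, G, l, h1, h2, h3, h4, h5⟩
    obtain ⟨e0, h, h6, h7⟩ := exists_good_edge h1 hr h2 h3 h4
    exact h7.trans (h5.2 ⟨delEdge G e0, delEdge_proper G e0, h6⟩)
  set A := {h : ℝ | ∃ H : G.Subgraph, H.Proper ∧ G.HasEntropy H.edges l h} with hA
  have hAfin : A.Finite := by
    refine (Set.finite_range (fun T : Set E => limUnder atTop (fun x : ℝ =>
      Real.log ((G.circuits T l x).ncard : ℝ) / x))).subset ?_
    rintro h ⟨H, -, hH⟩
    exact ⟨H.edges, Tendsto.limUnder_eq hH⟩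
  have hAne : A.Nonempty := by
    obtain ⟨e0, h, h6, -⟩ := exists_good_edge hc hr hrk hl hent
    exact ⟨h, delEdge _ e0, delEdge_proper _ e0, h6⟩
  obtain ⟨c, hc1, hc2⟩ := Set.exists_max_image A id hAfin hAne
  have hcS : c ∈ S := ⟨V, E, inferInstance, inferInstance, G, l, hc, hrk, hl, hent, hc1, hc2⟩
  refine (csInf_le ⟨_, hlow⟩ hcS).trans ?_
  obtain ⟨H, hH, hHc⟩ := hc1
  have hex : ∃ e0, e0 ∉ H.edges := by
    by_contra hcon
    push Not at hcon
    refine hH ⟨Set.eq_univ_of_forall fun v => ?_, Set.eq_univ_of_forall hcon⟩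
    obtain ⟨e, rfl⟩ := hv v
    exact H.o_mem e (hcon e)
  obtain ⟨e0, he0⟩ := hex
  have hT : ∀ e ∈ (Finset.univ.erase e0).erase (G.bar e0),
      G.bar e ∈ (Finset.univ.erase e0).erase (G.bar e0) := fun e he => by
    have := (delEdge G e0).bar_mem e (Finset.mem_coe.2 he)
    exact Finset.mem_coe.1 this
  obtain ⟨h, h1, h2, h3⟩ := entropy_spec hT hl
  have h4 : c ≤ h := by
    refine entropy_mono' hl (fun e he => ?_) hHc h1
    simp only [Finset.coe_erase, Finset.coe_univ, Set.mem_sdiff, Set.mem_univ,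
      Set.mem_singleton_iff, true_and]
    refine ⟨fun h => he0 (h ▸ he), fun h => he0 ?_⟩
    have := H.bar_mem e he
    rwa [h, G.bar_bar] at this
  refine h4.trans ?_
  by_contra hcon
  push Not at hcon
  obtain ⟨g, hg, hg'⟩ := (h3 h (hb.trans_lt hcon)).1 le_rfl
  have := hpd e0 h hcon (entropy_mono hl h1 hent) g hg
  linarith

theorem sum_o {G : Graph V E} {k : ℕ}
    (hreg : ∀ v, (Finset.univ.filter fun e => G.o e = v).card = k) (F : V → ℝ) :
    ∑ e, F (G.o e) = k * ∑ v, F v := by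
  rw [← Finset.sum_fiberwise (s := Finset.univ) (g := G.o), Finset.mul_sum]
  refine Finset.sum_congr rfl fun v _ => ?_
  rw [Finset.sum_congr rfl (g := fun _ => F v) fun e he => by rw [(Finset.mem_filter.1 he).2],
    Finset.sum_const, hreg, nsmul_eq_mul]

theorem form_reg {G : Graph V E} {d : ℕ}
    (hreg : ∀ v, (Finset.univ.filter fun e => G.o e = v).card = d + 1) {u : ℝ}
    (hu : 1 - u ^ 2 ≠ 0) (g : V → ℝ) :
    (1 - u ^ 2) * form G Finset.univ (fun _ => u) g g
      = (1 - u) * (1 - d * u) * ∑ v, g v ^ 2 + u / 2 * ∑ e, (g (G.o e) - g (G.t e)) ^ 2 := by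
  have h1 := sum_o hreg (fun v => g v ^ 2)
  have h2 : ∑ e, g (G.t e) ^ 2 = ∑ e, g (G.o e) ^ 2 :=
    G.sum_bar (T := Finset.univ) (fun e _ => Finset.mem_univ _) (fun e => g (G.o e) ^ 2)
  have h3 : ∑ e, (g (G.o e) - g (G.t e)) ^ 2
      = ∑ e, g (G.o e) ^ 2 + ∑ e, g (G.t e) ^ 2 - 2 * ∑ e, g (G.o e) * g (G.t e) := by
    rw [Finset.mul_sum, ← Finset.sum_add_distrib, ← Finset.sum_sub_distrib]
    exact Finset.sum_congr rfl fun e _ => by ring
  have h4 : (1 - u ^ 2) * ∑ e, g (G.o e) * (u * amp G (fun _ => u) g e)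
      = u * ∑ e, g (G.o e) * g (G.t e) - u ^ 2 * ∑ e, g (G.o e) ^ 2 := by
    rw [Finset.mul_sum, Finset.mul_sum, Finset.mul_sum, ← Finset.sum_sub_distrib]
    refine Finset.sum_congr rfl fun e _ => ?_
    simp only [amp]
    field_simp
  have h5 : ∑ v, g v * g v = ∑ v, g v ^ 2 := Finset.sum_congr rfl fun v _ => by ring
  rw [form, mul_sub, h4, h5, h3, h2, h1]
  push_cast
  ring

theorem form_del {G : Graph V E} {d : ℕ}
    (hreg : ∀ v, (Finset.univ.filter fun e => G.o e = v).card = d + 1) {u : ℝ}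
    (hu : 1 - u ^ 2 ≠ 0) (g : V → ℝ) (e0 : E) :
    (1 - u ^ 2) * form G ((Finset.univ.erase e0).erase (G.bar e0)) (fun _ => u) g g
      = (1 - u) * (1 - d * u) * ∑ v, g v ^ 2 + u / 2 * ∑ e, (g (G.o e) - g (G.t e)) ^ 2
        + 2 * u * g (G.o e0) * g (G.t e0) - u ^ 2 * (g (G.o e0) ^ 2 + g (G.t e0) ^ 2) := by
  rw [← form_reg hreg hu g]
  have h1 := Finset.add_sum_erase Finset.univ
    (fun e => g (G.o e) * (u * amp G (fun _ => u) g e)) (Finset.mem_univ e0)
  have h2 := Finset.add_sum_erase (Finset.univ.erase e0)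
    (fun e => g (G.o e) * (u * amp G (fun _ => u) g e))
    (Finset.mem_erase.2 ⟨G.bar_ne e0, Finset.mem_univ _⟩)
  simp only [form]
  rw [← h1, ← h2]
  simp only [amp, G.t_bar, G.o_bar]
  field_simp
  ring

/-- A regular graph of degree `d + 1` with all lengths `log d` has entropy `1`. -/
theorem reg_entropy {G : Graph V E} [Nonempty V] {d : ℕ} (hd : 2 ≤ d)
    (hreg : ∀ v, (Finset.univ.filter fun e => G.o e = v).card = d + 1) :
    G.HasEntropy Set.univ (fun _ => Real.log d) 1 := by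
  have hd' : (2 : ℝ) ≤ d := by exact_mod_cast hd
  have hL : 0 < Real.log d := Real.log_pos (by linarith)
  have hl : G.IsLength (fun _ => Real.log d) := fun _ => ⟨hL, rfl⟩
  obtain ⟨h, hh1, hh0, hh2⟩ := entropy_spec (G := G) (T := Finset.univ)
    (fun e _ => Finset.mem_univ _) hl
  rw [Finset.coe_univ] at hh1
  have hw : ∀ s : ℝ, wt (fun _ : E => Real.log d) s = fun _ => exp (-(s * Real.log d)) :=
    fun _ => rfl
  have h1 : 1 ≤ h := by
    refine (hh2 1 one_pos).2 ⟨fun _ => 1, fun h => ?_, ?_⟩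
    · simpa using congrFun h (Classical.arbitrary V)
    · have hu : exp (-(1 * Real.log d)) = (d : ℝ)⁻¹ := by
        rw [one_mul, exp_neg, exp_log (by linarith)]
      have hu0 : (0 : ℝ) < (d : ℝ)⁻¹ := by positivity
      have hu1 : (d : ℝ)⁻¹ ≤ 1 / 2 := by
        rw [inv_eq_one_div]
        exact one_div_le_one_div_of_le two_pos hd'
      have h3 : 0 < 1 - (d : ℝ)⁻¹ ^ 2 := by nlinarith
      have h2 := form_reg hreg h3.ne' (fun _ => (1 : ℝ))
      rw [mul_inv_cancel₀ (by linarith : (d : ℝ) ≠ 0)] at h2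
      simp only [sub_self, mul_zero, zero_mul, zero_add] at h2
      rw [hw, hu]
      have h4 : (1 - (d : ℝ)⁻¹ ^ 2) * form G Finset.univ (fun _ => (d : ℝ)⁻¹) (fun _ => 1)
          (fun _ => 1) = 0 := by
        rw [h2]
        simp
      exact ((mul_eq_zero.1 h4).resolve_left h3.ne').le
  have h2 : h ≤ 1 := by
    by_contra hcon
    push Not at hcon
    obtain ⟨g, hg, hg'⟩ := (hh2 h (by linarith)).1 le_rfl
    rw [hw] at hg'
    set u := exp (-(h * Real.log d)) with hu
    have hu0 : 0 < u := exp_pos _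
    have hu1 : d * u < 1 := by
      have h1 : d * u = exp ((1 - h) * Real.log d) := by
        rw [sub_mul 1 h, one_mul, sub_eq_add_neg (Real.log _), exp_add, exp_log (by linarith)]
      rw [h1, exp_lt_one_iff]
      exact mul_neg_of_neg_of_pos (by linarith) hL
    have hu2 : u < 1 / 2 := by nlinarith
    have h3 : 0 < 1 - u ^ 2 := by nlinarith
    have h4 := form_reg hreg h3.ne' g
    have h5 : 0 < ∑ v, g v ^ 2 := by
      obtain ⟨v, hv⟩ := Function.ne_iff.1 hg
      exact Finset.sum_pos' (fun v _ => sq_nonneg _) ⟨v, Finset.mem_univ _, by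
        have : g v ≠ 0 := hv
        positivity⟩
    have h6 : 0 ≤ ∑ e, (g (G.o e) - g (G.t e)) ^ 2 := Finset.sum_nonneg fun e _ => sq_nonneg _
    have h7 : 0 < (1 - u) * (1 - d * u) * ∑ v, g v ^ 2 :=
      mul_pos (mul_pos (by linarith) (by linarith)) h5
    have h8 := mul_nonneg (show 0 ≤ u / 2 by linarith) h6
    have h9 := mul_nonpos_of_nonneg_of_nonpos h3.le hg'
    linarith
  rwa [le_antisymm h2 h1] at hh1

end Pool.Agent.Lib.MP_0a131d_gt
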